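import Mathlib

set_option autoImplicit false

/-! Rings with a norm of polynomial growth: indices of ideals, and elements of ideals in boxes. -/

namespace Pool.Agent.K9h54.PA

open Finset

/-- A norm on a commutative ring whose balls grow like `X ^ d`. -/
structure Dat (R : Type*) [CommRing R] where
  h : R → ℝ
  d : ℕ
  C1 : ℝ
  c1 : ℝ
  c2 : ℝ
  X0 : ℝ
  hd : 1 ≤ d
  zero : h 0 = 0
  pos : ∀ r, r ≠ 0 → 1 ≤ h r
  neg : ∀ r, h (-r) = h r
  add : ∀ a b, h (a + b) ≤ h a + h b
  mul : ∀ a b, h (a * b) ≤ C1 * (h a * h b)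
  hC1 : 1 ≤ C1
  hc1 : 0 < c1
  hc2 : 0 < c2
  hX0 : 1 ≤ X0
  fin : ∀ X : ℝ, {r | h r ≤ X}.Finite
  low : ∀ X : ℝ, 1 ≤ X → c1 * X ^ d ≤ (fin X).toFinset.card
  up : ∀ X : ℝ, 1 ≤ X → ((fin X).toFinset.card : ℝ) ≤ c2 * X ^ d
  gen : AddSubgroup.closure {r | h r ≤ X0} = ⊤

namespace Dat

variable {R : Type*} [CommRing R] (D : Dat R)

/-- the ball of radius `X` -/
noncomputable def box (X : ℝ) : Finset R := (D.fin X).toFinset

lemma mem_box {X : ℝ} {r : R} : r ∈ D.box X ↔ D.h r ≤ X := by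
  unfold box
  simp

lemma nonneg (r : R) : 0 ≤ D.h r := by
  by_cases h : r = 0
  · rw [h, D.zero]
  · linarith [D.pos r h]

lemma sub (a b : R) : D.h (a - b) ≤ D.h a + D.h b := by
  rw [sub_eq_add_neg]
  refine (D.add _ _).trans ?_
  rw [D.neg]

lemma low' {X : ℝ} (hX : 1 ≤ X) : D.c1 * X ^ D.d ≤ ((D.box X).card : ℝ) := D.low X hX

lemma up' {X : ℝ} (hX : 1 ≤ X) : ((D.box X).card : ℝ) ≤ D.c2 * X ^ D.d := D.up X hX

/-- the constant of the index bound -/
noncomputable def CI : ℝ := D.c2 / D.c1 * (2 * D.C1) ^ D.d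

lemma CI_pos : 0 < D.CI := by
  unfold CI
  have h1 := D.hC1
  have h2 := D.hc1
  have h3 := D.hc2
  positivity

/-- pairwise incongruent elements modulo an ideal which contains a small element -/
lemma index_le [IsDomain R] (I : Ideal R) (f : R) (hf : f ∈ I) (hf0 : f ≠ 0) (T : Finset R)
    (hT : ∀ r ∈ T, ∀ s ∈ T, r - s ∈ I → r = s) : (T.card : ℝ) ≤ D.CI * D.h f ^ D.d := by
  classical
  set ρ : ℝ := ∑ r ∈ T, D.h r with hρ
  have hρ0 : 0 ≤ ρ := sum_nonneg fun r _ => D.nonneg r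
  have hρr : ∀ r ∈ T, D.h r ≤ ρ := fun r hr => single_le_sum (fun r _ => D.nonneg r) hr
  set Y : ℝ := 1 + ρ with hY
  have hY1 : 1 ≤ Y := by linarith
  have hf1 := D.pos f hf0
  have hC1 := D.hC1
  have hc1 := D.hc1
  have hc2 := D.hc2
  have hCf : 1 ≤ D.C1 * D.h f := by nlinarith
  have h1 : (T ×ˢ D.box Y).card ≤ (D.box (2 * D.C1 * D.h f * Y)).card := by
    apply card_le_card_of_injOn (fun p => p.1 + f * p.2)
    · intro p hp
      rw [mem_coe, mem_product] at hp
      rw [mem_coe, mem_box]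
      have h2 := (D.mem_box).1 hp.2
      have h3 := hρr _ hp.1
      refine (D.add _ _).trans ?_
      have h4 := D.mul f p.2
      have h5 : D.h f * D.h p.2 ≤ D.h f * Y := mul_le_mul_of_nonneg_left h2 (D.nonneg f)
      have h6 : D.C1 * (D.h f * D.h p.2) ≤ D.C1 * (D.h f * Y) := mul_le_mul_of_nonneg_left h5 (by linarith)
      have h7 : ρ ≤ D.C1 * D.h f * Y := by nlinarith
      linarith
    · intro p hp q hq hpq
      rw [mem_coe, mem_product] at hp hq
      simp only at hpq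
      have h2 : p.1 - q.1 ∈ I := by
        have : p.1 - q.1 = f * (q.2 - p.2) := by linear_combination hpq
        rw [this]
        exact I.mul_mem_right _ hf
      have h3 := hT _ hp.1 _ hq.1 h2
      rw [h3] at hpq
      have h4 : f * p.2 = f * q.2 := add_left_cancel hpq
      exact Prod.ext h3 (mul_left_cancel₀ hf0 h4)
  rw [card_product] at h1
  have h2 : ((T.card : ℝ)) * ((D.box Y).card : ℝ) ≤ ((D.box (2 * D.C1 * D.h f * Y)).card : ℝ) := by exact_mod_cast h1
  have h3 := D.low' hY1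
  have h4 := D.up' (X := 2 * D.C1 * D.h f * Y) (by nlinarith)
  have hYd : 0 < Y ^ D.d := by positivity
  have h5 : (T.card : ℝ) * (D.c1 * Y ^ D.d) ≤ D.c2 * (2 * D.C1 * D.h f * Y) ^ D.d :=
    (mul_le_mul_of_nonneg_left h3 (Nat.cast_nonneg _)).trans (h2.trans h4)
  rw [mul_pow, mul_pow] at h5
  unfold CI
  have h6 : (T.card : ℝ) * D.c1 * Y ^ D.d ≤ (D.c2 * ((2 * D.C1) ^ D.d * D.h f ^ D.d)) * Y ^ D.d := by linarith
  have h7 := le_of_mul_le_mul_right h6 hYd
  rw [div_mul_eq_mul_div, div_mul_eq_mul_div, le_div_iff₀ hc1]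
  linarith

/-- the index of an ideal which contains a small element -/
lemma card_quot_le [IsDomain R] (I : Ideal R) [Finite (R ⧸ I)] (f : R) (hf : f ∈ I) (hf0 : f ≠ 0) :
    (Nat.card (R ⧸ I) : ℝ) ≤ D.CI * D.h f ^ D.d := by
  classical
  haveI := Fintype.ofFinite (R ⧸ I)
  set T : Finset R := univ.image (fun q : R ⧸ I => Quotient.out q) with hT
  have h1 : T.card = Nat.card (R ⧸ I) := by
    rw [hT, card_image_of_injective, Nat.card_eq_fintype_card]
    · rfl
    · intro q q' h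
      simp only at h
      have := congrArg (Ideal.Quotient.mk I) h
      have e : ∀ q : R ⧸ I, Ideal.Quotient.mk I (Quotient.out q) = q := fun q => Quotient.out_eq' q
      rw [e, e] at this
      exact this
  rw [← h1]
  apply D.index_le I f hf hf0
  intro r hr s hs hrs
  rw [hT, mem_image] at hr hs
  obtain ⟨q, _, rfl⟩ := hr
  obtain ⟨q', _, rfl⟩ := hs
  have e : ∀ q : R ⧸ I, Ideal.Quotient.mk I (Quotient.out q) = q := fun q => Quotient.out_eq' q
  have h2 := (Ideal.Quotient.mk_eq_mk_iff_sub_mem _ _).2 hrs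
  rw [e, e] at h2
  rw [h2]

/-- the constant of the packing bound -/
noncomputable def CP : ℝ := D.c2 / D.c1 * 4 ^ D.d * D.CI + D.c2 * 3 ^ D.d * D.CI

lemma CP_pos : 0 < D.CP := by
  unfold CP
  have h1 := D.CI_pos
  have h2 := D.hc1
  have h3 := D.hc2
  positivity

open Classical in
/-- nonzero elements of an ideal in a ball -/
lemma ideal_box [IsDomain R] (I : Ideal R) [Finite (R ⧸ I)] (Y : ℝ) (hY : 1 ≤ Y) :
    (((D.box Y).filter (fun f => f ∈ I ∧ f ≠ 0)).card : ℝ) * Nat.card (R ⧸ I) ≤ D.CP * Y ^ D.d := by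
  set a : ℝ := ((Nat.card (R ⧸ I) : ℕ) : ℝ) with ha
  have ha1 : 1 ≤ a := by
    have : 0 < Nat.card (R ⧸ I) := Nat.card_pos
    rw [ha]
    exact_mod_cast this
  have hCI := D.CI_pos
  have hc1 := D.hc1
  have hc2 := D.hc2
  have hd : D.d ≠ 0 := by have := D.hd; omega
  set δ : ℝ := (a / D.CI) ^ ((1 : ℝ) / D.d) with hδ
  have hδd : δ ^ D.d = a / D.CI := by
    rw [hδ, ← Real.rpow_natCast, ← Real.rpow_mul (by positivity)]
    rw [one_div, inv_mul_cancel₀ (by exact_mod_cast hd), Real.rpow_one]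
  have hδ0 : 0 < δ := by rw [hδ]; positivity
  have hsmall : ∀ f ∈ I, f ≠ 0 → δ ≤ D.h f := by
    intro f hf hf0
    have h1 := D.card_quot_le I f hf hf0
    have h2 : δ ^ D.d ≤ D.h f ^ D.d := by
      rw [hδd, div_le_iff₀ hCI]
      linarith
    exact le_of_pow_le_pow_left₀ hd (D.nonneg f) h2
  set F := (D.box Y).filter (fun f => f ∈ I ∧ f ≠ 0) with hF
  rcases lt_or_ge Y δ with hYδ | hYδ
  · have : F = ∅ := by
      rw [hF, filter_eq_empty_iff]
      rintro f hf ⟨hfI, hf0⟩
      have h1 := hsmall f hfI hf0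
      have h2 := (D.mem_box).1 hf
      linarith
    rw [this]
    simp only [card_empty, Nat.cast_zero, zero_mul]
    have := D.CP_pos
    positivity
  have haδ : a = D.CI * δ ^ D.d := by rw [hδd]; field_simp
  have hYd0 : 0 < Y ^ D.d := by positivity
  rcases lt_or_ge δ 3 with h3 | h3
  · have h1 : (F.card : ℝ) ≤ D.c2 * Y ^ D.d := by
      refine le_trans ?_ (D.up' hY)
      exact_mod_cast card_filter_le _ _
    have h2 : a ≤ 3 ^ D.d * D.CI := by
      rw [haδ, mul_comm]
      exact mul_le_mul_of_nonneg_right (pow_le_pow_left₀ hδ0.le h3.le _) hCI.le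
    calc (F.card : ℝ) * a ≤ (D.c2 * Y ^ D.d) * (3 ^ D.d * D.CI) := mul_le_mul h1 h2 (by linarith) (by positivity)
      _ = (D.c2 * 3 ^ D.d * D.CI) * Y ^ D.d := by ring
      _ ≤ D.CP * Y ^ D.d := by
          apply mul_le_mul_of_nonneg_right _ hYd0.le
          unfold CP
          have : 0 < D.c2 / D.c1 * 4 ^ D.d * D.CI := by positivity
          linarith
  · set ρ : ℝ := δ / 3 with hρ
    have hρ1 : 1 ≤ ρ := by rw [hρ]; linarith
    have h1 : (F ×ˢ D.box ρ).card ≤ (D.box (Y + ρ)).card := by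
      apply card_le_card_of_injOn (fun p => p.1 + p.2)
      · intro p hp
        rw [mem_coe, mem_product, hF, mem_filter, mem_box, mem_box] at hp
        rw [mem_coe, mem_box]
        refine (D.add _ _).trans ?_
        linarith [hp.1.1, hp.2]
      · intro p hp q hq hpq
        rw [mem_coe, mem_product, hF, mem_filter, mem_box, mem_box] at hp hq
        simp only at hpq
        by_contra hne
        have h2 : p.1 ≠ q.1 := by
          intro h
          apply hne
          rw [h] at hpq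
          exact Prod.ext h (add_left_cancel hpq)
        have h4 := hsmall (p.1 - q.1) (I.sub_mem hp.1.2.1 hq.1.2.1) (sub_ne_zero.2 h2)
        have h5 : p.1 - q.1 = q.2 - p.2 := by linear_combination hpq
        rw [h5] at h4
        have h6 := D.sub q.2 p.2
        have h7 := hp.2
        have h8 := hq.2
        rw [hρ] at h7 h8
        linarith
    rw [card_product] at h1
    have h2 : (F.card : ℝ) * ((D.box ρ).card : ℝ) ≤ ((D.box (Y + ρ)).card : ℝ) := by exact_mod_cast h1
    have h4 := D.low' hρ1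
    have h5 := D.up' (X := Y + ρ) (by linarith)
    have h6 : (Y + ρ) ^ D.d ≤ (4 / 3 * Y) ^ D.d := by
      apply pow_le_pow_left₀ (by linarith)
      rw [hρ]
      linarith
    have h7 : (F.card : ℝ) * (D.c1 * ρ ^ D.d) ≤ D.c2 * (4 / 3 * Y) ^ D.d :=
      (mul_le_mul_of_nonneg_left h4 (Nat.cast_nonneg _)).trans (h2.trans (h5.trans
        (mul_le_mul_of_nonneg_left h6 hc2.le)))
    have h8 : δ ^ D.d = 3 ^ D.d * ρ ^ D.d := by
      rw [← mul_pow, hρ]
      congr 1
      ring
    have h9 : a = D.CI * (3 ^ D.d * ρ ^ D.d) := by rw [← h8]; exact haδ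
    have h10 : a = (D.c1 * ρ ^ D.d) * (3 ^ D.d * D.CI / D.c1) := by
      rw [h9, mul_div_assoc', eq_div_iff hc1.ne']
      ring
    calc (F.card : ℝ) * a = (F.card * (D.c1 * ρ ^ D.d)) * (3 ^ D.d * D.CI / D.c1) := by
          rw [mul_assoc, ← h10]
      _ ≤ (D.c2 * (4 / 3 * Y) ^ D.d) * (3 ^ D.d * D.CI / D.c1) := mul_le_mul_of_nonneg_right h7 (by positivity)
      _ = (D.c2 / D.c1 * 4 ^ D.d * D.CI) * Y ^ D.d := by
          have e : (4 / 3 * Y) ^ D.d * 3 ^ D.d = 4 ^ D.d * Y ^ D.d := by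
            rw [← mul_pow, ← mul_pow]
            congr 1
            ring
          calc (D.c2 * (4 / 3 * Y) ^ D.d) * (3 ^ D.d * D.CI / D.c1) =
                D.c2 * ((4 / 3 * Y) ^ D.d * 3 ^ D.d) * D.CI / D.c1 := by ring
            _ = _ := by rw [e]; ring
      _ ≤ D.CP * Y ^ D.d := by
          apply mul_le_mul_of_nonneg_right _ hYd0.le
          unfold CP
          have : 0 < D.c2 * 3 ^ D.d * D.CI := by positivity
          linarith

end Dat

end Pool.Agent.K9h54.PA
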