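import Mathlib

set_option autoImplicit false

/-! Growth in finite abelian groups. -/

namespace Pool.Agent.K9h54.PA

open Finset
open scoped Pointwise

variable {G : Type*} [AddCommGroup G] [DecidableEq G]

/-- iterated sum sets -/
def iter (B : Finset G) : ℕ → Finset G
  | 0 => {0}
  | j + 1 => iter B j + B

lemma iter_mono (B : Finset G) (h0 : (0 : G) ∈ B) {i j : ℕ} (h : i ≤ j) : iter B i ⊆ iter B j := by
  induction j, h using Nat.le_induction with
  | base => exact Subset.refl _
  | succ n _ ih =>
    intro x hx
    have h1 := ih hx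
    show x ∈ iter B n + B
    rw [mem_add]
    exact ⟨x, h1, 0, h0, add_zero x⟩

lemma iter_add (B : Finset G) {j : ℕ} {x b : G} (hx : x ∈ iter B j) (hb : b ∈ B) : x + b ∈ iter B (j + 1) := by
  show x + b ∈ iter B j + B
  exact add_mem_add hx hb

/-- if the iterated sums stop growing they are everything -/
lemma iter_closed (B : Finset G) (hs : ∀ b ∈ B, -b ∈ B) (h0 : (0 : G) ∈ B)
    (hgen : AddSubgroup.closure (B : Set G) = ⊤) (j : ℕ) (h : iter B (j + 1) ⊆ iter B j) : ∀ x : G, x ∈ iter B j := by
  intro x
  have hx : x ∈ AddSubgroup.closure (B : Set G) := by rw [hgen]; trivial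
  have key : ∀ x ∈ AddSubgroup.closure (B : Set G), ∀ y ∈ iter B j, y + x ∈ iter B j := by
    intro x hx
    induction hx using AddSubgroup.closure_induction with
    | mem x hx => intro y hy; exact h (iter_add B hy hx)
    | zero => intro y hy; rwa [add_zero]
    | add x x' _ _ ih1 ih2 =>
      intro y hy
      rw [← add_assoc]
      exact ih2 _ (ih1 _ hy)
    | neg x _ ih =>
      intro y hy
      -- finite set, translation by x maps it to itself, hence bijectively
      have hmap : ∀ y ∈ iter B j, y + x ∈ iter B j := ih
      have hsurj : (iter B j).image (fun y => y + x) = iter B j := by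
        apply eq_of_subset_of_card_le
        · intro z hz
          rw [mem_image] at hz
          obtain ⟨w, hw, rfl⟩ := hz
          exact hmap w hw
        · rw [card_image_of_injective _ (add_left_injective x)]
      rw [← hsurj, mem_image] at hy
      obtain ⟨w, hw, rfl⟩ := hy
      rw [add_neg_cancel_right]
      exact hw
  have hz : (0 : G) ∈ iter B j := iter_mono B h0 (Nat.zero_le j) (by show (0 : G) ∈ ({0} : Finset G); simp)
  have := key x hx 0 hz
  rwa [zero_add] at this

/-- a large generating set fills the group after boundedly many steps -/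
theorem diam [Fintype G] (B : Finset G) (hs : ∀ b ∈ B, -b ∈ B) (h0 : (0 : G) ∈ B)
    (hgen : AddSubgroup.closure (B : Set G) = ⊤) (K : ℕ) (hK : Fintype.card G ≤ K * B.card) :
    ∀ x : G, x ∈ iter B (3 * K) := by
  by_contra hcon
  push Not at hcon
  obtain ⟨x, hx⟩ := hcon
  have hgrow : ∀ j ≤ 3 * K, ∃ y, y ∈ iter B (j + 1) ∧ y ∉ iter B j := by
    intro j hj
    by_contra hc
    push Not at hc
    have := iter_closed B hs h0 hgen j hc x
    exact hx (iter_mono B h0 hj this)
  choose y hy1 hy2 using hgrow
  have key : ∀ i ≤ K, i * B.card + 1 ≤ (iter B (3 * i)).card := by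
    intro i
    induction i with
    | zero =>
      intro _
      simp [iter]
    | succ n ih =>
      intro hn
      have h1 := ih (by omega)
      have hj : 3 * n + 1 ≤ 3 * K := by omega
      set z := y (3 * n + 1) hj with hz
      have hz1 : z ∈ iter B (3 * n + 1 + 1) := hy1 _ hj
      have hz2 : z ∉ iter B (3 * n + 1) := hy2 _ hj
      have hdisj : Disjoint (iter B (3 * n)) (B.image (fun b => z + b)) := by
        rw [disjoint_left]
        intro w hw hw2
        rw [mem_image] at hw2
        obtain ⟨b, hb, rfl⟩ := hw2
        apply hz2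
        have := iter_add B hw (hs b hb)
        rwa [add_neg_cancel_right] at this
      have hsub : (iter B (3 * n)) ∪ (B.image (fun b => z + b)) ⊆ iter B (3 * (n + 1)) := by
        apply union_subset
        · exact iter_mono B h0 (by omega)
        · intro w hw
          rw [mem_image] at hw
          obtain ⟨b, hb, rfl⟩ := hw
          exact iter_add B hz1 hb
      have h2 := card_le_card hsub
      rw [card_union_of_disjoint hdisj, card_image_of_injective _ (add_right_injective z)] at h2
      have h3 : (n + 1) * B.card = n * B.card + B.card := by ring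
      omega
  have h1 := key K le_rfl
  have h2 : (iter B (3 * K)).card ≤ Fintype.card G := card_le_univ _
  omega

omit [AddCommGroup G] in
/-- Cauchy-Schwarz: a map with few coincidences has a large image -/
lemma card_image_ge {α : Type*} [DecidableEq α] (S : Finset α) (ψ : α → G) :
    (S.card : ℝ) ^ 2 ≤ (S.image ψ).card * (((S ×ˢ S).filter (fun p => ψ p.1 = ψ p.2)).card : ℝ) := by
  have h1 : S.card = ∑ y ∈ S.image ψ, (S.filter (fun a => ψ a = y)).card :=
    card_eq_sum_card_image ψ S
  have h2 : ((S ×ˢ S).filter (fun p => ψ p.1 = ψ p.2)).card = ∑ y ∈ S.image ψ, (S.filter (fun a => ψ a = y)).card ^ 2 := by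
    rw [card_eq_sum_card_fiberwise (f := fun p => ψ p.1) (t := S.image ψ)]
    · apply sum_congr rfl
      intro y _
      rw [pow_two, ← card_product]
      congr 1
      ext p
      simp only [mem_filter, mem_product]
      constructor
      · rintro ⟨⟨⟨h3, h4⟩, h5⟩, h6⟩
        exact ⟨⟨h3, h6⟩, h4, by rw [← h5, h6]⟩
      · rintro ⟨⟨h3, h4⟩, h5, h6⟩
        exact ⟨⟨⟨h3, h5⟩, by rw [h4, h6]⟩, h4⟩
    · intro p hp
      rw [mem_coe, mem_filter, mem_product] at hp
      exact mem_coe.2 (mem_image_of_mem ψ hp.1.1)
  have h3 := sq_sum_le_card_mul_sum_sq (s := S.image ψ) (f := fun y => ((S.filter (fun a => ψ a = y)).card : ℝ))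
  rw [h2, h1]
  push_cast
  exact h3

end Pool.Agent.K9h54.PA
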