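import Mathlib

set_option autoImplicit false

/-! Digit expansions. -/

namespace Pool.Agent.K9h54.PA

open Finset

variable {R : Type*} [CommRing R]

/-- The digits `0, …, N - 1` are the residues modulo `π`. -/
structure Dig (π : R) (N : ℕ) : Prop where
  hN : 2 ≤ N
  hπ : π ≠ 0
  dig : ∀ r : R, ∃ a : ℕ, a < N ∧ π ∣ r - a
  dvd : ∀ a : ℤ, π ∣ (a : R) → (N : ℤ) ∣ a

/-- The element with the given digits. -/
def val (π : R) {N n : ℕ} (a : Fin n → Fin N) : R := ∑ i, ((a i : ℕ) : R) * π ^ (i : ℕ)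

lemma val_succ (π : R) {N n : ℕ} (a : Fin (n + 1) → Fin N) :
    val π a = ((a 0 : ℕ) : R) + π * val π (fun i => a i.succ) := by
  unfold val
  rw [Fin.sum_univ_succ]
  simp only [Fin.val_zero, pow_zero, mul_one, Fin.val_succ]
  rw [mul_sum]
  congr 1
  apply sum_congr rfl
  intro i _
  ring

lemma digit_eq {π : R} {N : ℕ} (H : Dig π N) (a b : Fin N) (h : π ∣ ((a : ℕ) : R) - ((b : ℕ) : R)) : a = b := by
  have h1 : π ∣ (((a : ℕ) : ℤ) - ((b : ℕ) : ℤ) : ℤ) := by
    push_cast
    exact h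
  have h2 := H.dvd _ h1
  have h3 : |((a : ℕ) : ℤ) - ((b : ℕ) : ℤ)| < N := by
    have := a.2
    have := b.2
    rw [abs_lt]
    constructor <;> omega
  have h4 := Int.eq_zero_of_abs_lt_dvd h2 h3
  exact Fin.ext (by omega)

lemma val_surj {π : R} {N : ℕ} (H : Dig π N) (n : ℕ) : ∀ r : R, ∃ a : Fin n → Fin N, π ^ n ∣ r - val π a := by
  induction n with
  | zero => intro r; exact ⟨fun i => i.elim0, by simp⟩
  | succ n ih =>
    intro r
    obtain ⟨a0, ha0, r', hr'⟩ := H.dig r
    obtain ⟨a', s, hs⟩ := ih r'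
    refine ⟨Fin.cons ⟨a0, ha0⟩ a', s, ?_⟩
    rw [val_succ]
    simp only [Fin.cons_zero, Fin.cons_succ]
    have : r' = val π a' + π ^ n * s := by linear_combination hs
    rw [this] at hr'
    have e : (fun i => a' i) = a' := rfl
    rw [pow_succ]
    linear_combination hr'

lemma val_inj [IsDomain R] {π : R} {N : ℕ} (H : Dig π N) (n : ℕ) :
    ∀ a b : Fin n → Fin N, π ^ n ∣ val π a - val π b → a = b := by
  induction n with
  | zero => intro a b _; funext i; exact i.elim0
  | succ n ih =>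
    intro a b h
    rw [val_succ, val_succ] at h
    have h0 : a 0 = b 0 := by
      apply digit_eq H
      have h1 : π ∣ (((a 0 : ℕ) : R) + π * val π fun i => a i.succ) - (((b 0 : ℕ) : R) + π * val π fun i => b i.succ) :=
        (dvd_pow_self π (by omega)).trans h
      have h2 : π ∣ π * ((val π fun i => a i.succ) - (val π fun i => b i.succ)) := dvd_mul_right _ _
      have h3 := dvd_sub h1 h2
      have e : (((a 0 : ℕ) : R) + π * val π fun i => a i.succ) - (((b 0 : ℕ) : R) + π * val π fun i => b i.succ) -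
          π * ((val π fun i => a i.succ) - (val π fun i => b i.succ)) = ((a 0 : ℕ) : R) - ((b 0 : ℕ) : R) := by ring
      rwa [e] at h3
    have h1 : π ^ n ∣ (val π fun i => a i.succ) - (val π fun i => b i.succ) := by
      rw [h0] at h
      have e : (((b 0 : ℕ) : R) + π * val π fun i => a i.succ) - (((b 0 : ℕ) : R) + π * val π fun i => b i.succ) =
          π * ((val π fun i => a i.succ) - (val π fun i => b i.succ)) := by ring
      rw [e, pow_succ, mul_comm] at h
      exact (mul_dvd_mul_iff_left H.hπ).1 h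
    have h2 := ih _ _ h1
    funext i
    refine Fin.cases h0 (fun i => ?_) i
    exact congrFun h2 i

/-- the digit sequences are the residues modulo `π ^ n` -/
noncomputable def toQ (π : R) (N n : ℕ) (a : Fin n → Fin N) : R ⧸ Ideal.span {π ^ n} :=
  Ideal.Quotient.mk _ (val π a)

lemma toQ_bij [IsDomain R] {π : R} {N : ℕ} (H : Dig π N) (n : ℕ) : Function.Bijective (toQ π N n) := by
  constructor
  · intro a b h
    unfold toQ at h
    rw [Ideal.Quotient.mk_eq_mk_iff_sub_mem, Ideal.mem_span_singleton] at h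
    exact val_inj H n a b h
  · intro q
    obtain ⟨r, rfl⟩ := Ideal.Quotient.mk_surjective q
    obtain ⟨a, ha⟩ := val_surj H n r
    refine ⟨a, ?_⟩
    unfold toQ
    symm
    rw [Ideal.Quotient.mk_eq_mk_iff_sub_mem, Ideal.mem_span_singleton]
    exact ha

lemma finQ [IsDomain R] {π : R} {N : ℕ} (H : Dig π N) (n : ℕ) : Finite (R ⧸ Ideal.span {π ^ n}) :=
  Finite.of_surjective _ (toQ_bij H n).2

lemma cardQ [IsDomain R] {π : R} {N : ℕ} (H : Dig π N) (n : ℕ) : Nat.card (R ⧸ Ideal.span {π ^ n}) = N ^ n := by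
  rw [← Nat.card_eq_of_bijective _ (toQ_bij H n), Nat.card_eq_fintype_card]
  simp

/-- `f / g` is the `π`-adic number with the digits `b` -/
def Outputs (π : R) (b : ℕ → ℕ) (f g : R) : Prop :=
  IsCoprime g π ∧ ∀ k : ℕ, π ^ k ∣ g * (∑ i ∈ range k, ((b i : ℕ) : R) * π ^ i) - f

/-- every fraction has an expansion -/
lemma expansion {π : R} {N : ℕ} (H : Dig π N) (f g : R) (hg : IsCoprime g π) :
    ∃ b : ℕ → ℕ, (∀ i, b i < N) ∧ Outputs π b f g := by
  obtain ⟨u, v, huv⟩ := hg
  -- one step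
  have step : ∀ r : R, ∃ p : ℕ × R, p.1 < N ∧ r = g * p.1 + π * p.2 := by
    intro r
    obtain ⟨a, ha, s, hs⟩ := H.dig (u * r)
    refine ⟨(a, v * r + g * s), ha, ?_⟩
    simp only
    have h1 : (a : R) = u * r - π * s := by linear_combination -hs
    rw [h1]
    linear_combination (-r) * huv
  choose st hst1 hst2 using step
  -- the sequence of remainders
  set F : ℕ → R := fun k => Nat.rec f (fun _ r => (st r).2) k with hF
  have hF0 : F 0 = f := rfl
  have hFs : ∀ k, F (k + 1) = (st (F k)).2 := fun k => rfl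
  refine ⟨fun k => (st (F k)).1, fun i => hst1 _, ⟨u, v, huv⟩, ?_⟩
  intro k
  refine ⟨-(F k), ?_⟩
  induction k with
  | zero => rw [hF0]; simp
  | succ k ih =>
    rw [sum_range_succ, mul_add]
    have h1 := hst2 (F k)
    rw [hFs]
    have h2 : g * (((st (F k)).1 : ℕ) : R) = F k - π * (st (F k)).2 := by linear_combination -h1
    rw [pow_succ]
    linear_combination ih + π ^ k * h2

lemma coprime_pow_dvd {π g : R} (hg : IsCoprime g π) (n : ℕ) (y : R) (h : π ^ n ∣ g * y) : π ^ n ∣ y :=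
  (hg.pow_right (n := n)).symm.dvd_of_dvd_mul_left h

lemma sum_range_eq_val {π : R} {N n : ℕ} (b : ℕ → ℕ) (hb : ∀ i, b i < N) :
    ∑ i ∈ range n, ((b i : ℕ) : R) * π ^ i = val π (fun i : Fin n => (⟨b i, hb i⟩ : Fin N)) := by
  unfold val
  rw [Finset.sum_range]

/-- extensions of a finite sequence and congruences -/
lemma ext_iff [IsDomain R] {π : R} {N : ℕ} (H : Dig π N) {n : ℕ} (a : Fin n → Fin N) (f g : R) :
    (∃ b : ℕ → ℕ, (∀ i, b i < N) ∧ (∀ i : Fin n, b i = a i) ∧ Outputs π b f g) ↔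
    (IsCoprime g π ∧ π ^ n ∣ g * val π a - f) := by
  constructor
  · rintro ⟨b, hb, hba, hg, hk⟩
    refine ⟨hg, ?_⟩
    have h1 := hk n
    rw [sum_range_eq_val b hb] at h1
    have e : (fun i : Fin n => (⟨b i, hb i⟩ : Fin N)) = a := by
      funext i
      exact Fin.ext (hba i)
    rwa [e] at h1
  · rintro ⟨hg, h⟩
    obtain ⟨b, hb, hout⟩ := expansion H f g hg
    refine ⟨b, hb, ?_, hout⟩
    have h1 := hout.2 n
    rw [sum_range_eq_val b hb] at h1
    have h2 := dvd_sub h1 h
    have e : g * val π (fun i : Fin n => (⟨b i, hb i⟩ : Fin N)) - f - (g * val π a - f) =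
        g * (val π (fun i : Fin n => (⟨b i, hb i⟩ : Fin N)) - val π a) := by ring
    rw [e] at h2
    have h3 := val_inj H n _ _ (coprime_pow_dvd hg n _ h2)
    intro i
    rw [← h3]

end Pool.Agent.K9h54.PA
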