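import Mathlib
import Pool.Agent.K9h54.PA.C1
import Pool.Agent.K9h54.PA.C3

set_option autoImplicit false

/-! The number of the digit sequences solving a congruence. -/

namespace Pool.Agent.K9h54.PA

open Finset

variable {R : Type*} [CommRing R]

lemma sum_union_le' {ι : Type*} [DecidableEq ι] (s t : Finset ι) (f : ι → ℝ) (hf : ∀ i, 0 ≤ f i) :
    ∑ i ∈ s ∪ t, f i ≤ ∑ i ∈ s, f i + ∑ i ∈ t, f i := by
  rw [← sum_union_inter]
  have : 0 ≤ ∑ i ∈ s ∩ t, f i := sum_nonneg fun i _ => hf i
  linarith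

/-- the ideal `(g, q)` -/
def Ig (q g : R) : Ideal R := Ideal.span {q} ⊔ Ideal.span {g}

lemma finIg (q g : R) [Finite (R ⧸ Ideal.span {q})] : Finite (R ⧸ Ig q g) := by
  have h : Ideal.span {q} ≤ Ig q g := le_sup_left
  exact Finite.of_surjective _ (Ideal.Quotient.factor_surjective h)

/-- the number of solutions of a linear congruence -/
lemma sol_le (q g : R) [Finite (R ⧸ Ideal.span {q})] :
    Nat.card {x : R ⧸ Ideal.span {q} // Ideal.Quotient.mk (Ideal.span {q}) g * x = 0} = Nat.card (R ⧸ Ig q g) := by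
  set Q := R ⧸ Ideal.span {q} with hQ
  set γ : Q := Ideal.Quotient.mk (Ideal.span {q}) g with hγ
  set m : Q →+ Q := AddMonoidHom.mulLeft γ with hm
  have h1 : Nat.card m.ker * m.ker.index = Nat.card Q := AddSubgroup.card_mul_index _
  have h2 : m.ker.index = Nat.card m.range := AddSubgroup.index_ker m
  have h3 : Nat.card m.range * m.range.index = Nat.card Q := AddSubgroup.card_mul_index _
  have h4 : 0 < Nat.card m.range := Nat.card_pos
  have h5 : Nat.card m.ker = m.range.index := by
    rw [h2] at h1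
    have : Nat.card m.range * Nat.card m.ker = Nat.card m.range * m.range.index := by
      rw [mul_comm, h1, h3]
    exact Nat.eq_of_mul_eq_mul_left h4 this
  have h6 : m.range = (Ideal.span {γ} : Ideal Q).toAddSubgroup := by
    ext y
    rw [AddMonoidHom.mem_range]
    change (∃ x, γ * x = y) ↔ y ∈ Ideal.span {γ}
    rw [Ideal.mem_span_singleton]
    constructor
    · rintro ⟨x, rfl⟩
      exact dvd_mul_right _ _
    · rintro ⟨x, rfl⟩
      exact ⟨x, rfl⟩
  have h7 : m.range.index = Nat.card (Q ⧸ (Ideal.span {γ} : Ideal Q)) := by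
    rw [h6]
    rfl
  have h8 : (Ideal.span {g}).map (Ideal.Quotient.mk (Ideal.span {q})) = (Ideal.span {γ} : Ideal Q) := by
    rw [Ideal.map_span, Set.image_singleton]
  have h9 : Nat.card (Q ⧸ (Ideal.span {γ} : Ideal Q)) = Nat.card (R ⧸ Ig q g) := by
    rw [← h8]
    exact Nat.card_congr (DoubleQuot.quotQuotEquivQuotSup (Ideal.span {q}) (Ideal.span {g})).toEquiv
  rw [← h9, ← h7, ← h5]
  apply Nat.card_congr
  exact Equiv.subtypeEquivRight (fun x => by rw [AddMonoidHom.mem_ker]; rfl)

open Classical in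
/-- the number of the digit sequences `a` with `g a ≡ f` -/
noncomputable def cnt (π : R) (N n : ℕ) (f g : R) : ℕ :=
  ((univ : Finset (Fin n → Fin N)).filter (fun a => π ^ n ∣ g * val π a - f)).card

lemma cnt_le [IsDomain R] {π : R} {N : ℕ} (H : Dig π N) (n : ℕ) (f g : R) :
    cnt π N n f g ≤ Nat.card (R ⧸ Ig (π ^ n) g) := by
  classical
  haveI := finQ H n
  haveI := finIg (π ^ n) g
  rcases Nat.eq_zero_or_pos (cnt π N n f g) with h | h
  · rw [h]; exact Nat.zero_le _
  · unfold cnt at h
    obtain ⟨a0, ha0⟩ := card_pos.1 h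
    rw [mem_filter] at ha0
    rw [← sol_le (π ^ n) g]
    unfold cnt
    set S : Finset (Fin n → Fin N) := univ.filter (fun a => π ^ n ∣ g * val π a - f) with hS
    have hmem : ∀ a ∈ S, Ideal.Quotient.mk (Ideal.span {π ^ n}) g * (toQ π N n a - toQ π N n a0) = 0 := by
      intro a ha
      rw [hS, mem_filter] at ha
      have h1 := dvd_sub ha.2 ha0.2
      have e : g * val π a - f - (g * val π a0 - f) = g * (val π a - val π a0) := by ring
      rw [e] at h1
      unfold toQ
      rw [← map_sub, ← map_mul, Ideal.Quotient.eq_zero_iff_mem, Ideal.mem_span_singleton]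
      exact h1
    set F : S → {x : R ⧸ Ideal.span {π ^ n} // Ideal.Quotient.mk (Ideal.span {π ^ n}) g * x = 0} :=
      fun a => ⟨toQ π N n a.1 - toQ π N n a0, hmem a.1 a.2⟩ with hF
    have hinj : Function.Injective F := by
      intro a b hab
      rw [hF] at hab
      simp only [Subtype.mk.injEq, sub_left_inj] at hab
      exact Subtype.ext ((toQ_bij H n).1 hab)
    have h2 := Nat.card_le_card_of_injective F hinj
    rw [Nat.card_eq_fintype_card, Fintype.card_coe] at h2
    exact h2

lemma cnt_zero {π : R} {N : ℕ} (n : ℕ) (f g : R) (hf : f ∉ Ig (π ^ n) g) : cnt π N n f g = 0 := by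
  classical
  unfold cnt
  rw [card_eq_zero, filter_eq_empty_iff]
  intro a _ h
  apply hf
  obtain ⟨s, hs⟩ := h
  have e : f = g * val π a - π ^ n * s := by linear_combination -hs
  rw [e]
  unfold Ig
  apply Ideal.sub_mem
  · exact Ideal.mul_mem_right _ _ (Ideal.mem_sup_right (Ideal.mem_span_singleton_self g))
  · exact Ideal.mul_mem_right _ _ (Ideal.mem_sup_left (Ideal.mem_span_singleton_self _))

lemma cnt_total [IsDomain R] {π : R} {N : ℕ} (n : ℕ) (f g : R) : cnt π N n f g ≤ N ^ n := by
  classical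
  unfold cnt
  refine (card_filter_le _ _).trans ?_
  simp

namespace Dat

variable (D : Dat R)

/-- constant -/
noncomputable def CS : ℝ := D.c2 * (D.CP + D.CI)

lemma CS_pos : 0 < D.CS := by
  unfold CS
  have h1 := D.CI_pos
  have h2 := D.CP_pos
  have h3 := D.hc2
  positivity

open Classical in
/-- the total number of small nonzero solutions -/
lemma total [IsDomain R] {π : R} {N : ℕ} (H : Dig π N) (n : ℕ) (Y : ℝ) (hY : 1 ≤ Y) :
    ∑ v ∈ (D.box Y ×ˢ D.box Y).filter (fun v => v ≠ 0), (cnt π N n v.1 v.2 : ℝ) ≤ D.CS * Y ^ (2 * D.d) := by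
  have hYd : 0 < Y ^ D.d := by positivity
  haveI := finQ H n
  have key : ∀ g ∈ D.box Y, ∑ f ∈ (D.box Y).filter (fun f => (f, g) ≠ 0), (cnt π N n f g : ℝ) ≤ (D.CP + D.CI) * Y ^ D.d := by
    intro g hg
    haveI := finIg (π ^ n) g
    have h0 : ∑ f ∈ (D.box Y).filter (fun f => (f, g) ≠ 0), (cnt π N n f g : ℝ) ≤
        ∑ f ∈ (D.box Y).filter (fun f => f ∈ Ig (π ^ n) g ∧ f ≠ 0), (cnt π N n f g : ℝ) +
        (if g ≠ 0 then (cnt π N n 0 g : ℝ) else 0) := by
      have hsub : (D.box Y).filter (fun f => (f, g) ≠ 0) ⊆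
          ((D.box Y).filter (fun f => f ≠ 0)) ∪ (if g ≠ 0 then {0} else ∅) := by
        intro f hf
        rw [mem_filter] at hf
        rw [mem_union, mem_filter]
        by_cases h1 : f = 0
        · right
          have h2 : g ≠ 0 := by
            intro h3
            apply hf.2
            rw [h1, h3]
            rfl
          rw [if_pos h2, h1]
          simp
        · left
          exact ⟨hf.1, h1⟩
      refine (sum_le_sum_of_subset_of_nonneg hsub (fun _ _ _ => Nat.cast_nonneg _)).trans ?_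
      refine (sum_union_le' _ _ _ (fun _ => Nat.cast_nonneg _)).trans ?_
      apply add_le_add
      · apply le_of_eq
        symm
        apply sum_subset
        · intro f hf
          rw [mem_filter] at hf ⊢
          exact ⟨hf.1, hf.2.2⟩
        · intro f hf hf2
          rw [mem_filter] at hf hf2
          have : f ∉ Ig (π ^ n) g := fun h => hf2 ⟨hf.1, h, hf.2⟩
          rw [cnt_zero n f g this]
          simp
      · split_ifs
        · simp
        · simp
    refine h0.trans ?_
    have h1 : ∑ f ∈ (D.box Y).filter (fun f => f ∈ Ig (π ^ n) g ∧ f ≠ 0), (cnt π N n f g : ℝ) ≤ D.CP * Y ^ D.d := by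
      refine le_trans (sum_le_sum fun f _ => (by exact_mod_cast cnt_le H n f g :
        (cnt π N n f g : ℝ) ≤ (Nat.card (R ⧸ Ig (π ^ n) g) : ℝ))) ?_
      rw [sum_const, nsmul_eq_mul]
      exact D.ideal_box (Ig (π ^ n) g) Y hY
    have h2 : (if g ≠ 0 then (cnt π N n 0 g : ℝ) else 0) ≤ D.CI * Y ^ D.d := by
      have hCI := D.CI_pos
      split_ifs with hg0
      · have h3 : (cnt π N n 0 g : ℝ) ≤ (Nat.card (R ⧸ Ig (π ^ n) g) : ℝ) := by exact_mod_cast cnt_le H n 0 g
        have h4 := D.card_quot_le (Ig (π ^ n) g) g (Ideal.mem_sup_right (Ideal.mem_span_singleton_self g)) hg0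
        have h5 := (D.mem_box).1 hg
        have h6 : D.h g ^ D.d ≤ Y ^ D.d := pow_le_pow_left₀ (D.nonneg g) h5 _
        have h7 := mul_le_mul_of_nonneg_left h6 hCI.le
        linarith
      · positivity
    linarith
  have h1 : ∑ v ∈ (D.box Y ×ˢ D.box Y).filter (fun v => v ≠ 0), (cnt π N n v.1 v.2 : ℝ) =
      ∑ g ∈ D.box Y, ∑ f ∈ (D.box Y).filter (fun f => (f, g) ≠ 0), (cnt π N n f g : ℝ) := by
    rw [sum_filter, sum_product_right]
    apply sum_congr rfl
    intro g _
    rw [sum_filter]
  rw [h1]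
  refine (sum_le_sum key).trans ?_
  rw [sum_const, nsmul_eq_mul]
  have h2 := D.up' hY
  have h3 : 0 ≤ (D.CP + D.CI) * Y ^ D.d := by
    have := D.CI_pos
    have := D.CP_pos
    positivity
  refine (mul_le_mul_of_nonneg_right h2 h3).trans (le_of_eq ?_)
  unfold CS
  rw [two_mul, pow_add]
  ring

end Dat

end Pool.Agent.K9h54.PA
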