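import Mathlib
import Pool.Agent.K9h54.PA.C2
import Pool.Agent.K9h54.PA.C4

set_option autoImplicit false

/-! Small fractions with invertible denominator: the upper bound. -/

namespace Pool.Agent.K9h54.PA

open Finset
open scoped Pointwise

variable {R : Type*} [CommRing R]

/-- The group of the pairs of residues. -/
abbrev GG (π : R) (n : ℕ) : Type _ := (R ⧸ Ideal.span {π ^ 1}) × (R ⧸ Ideal.span {π ^ n})

/-- The homomorphism `(f, g) ↦ (g mod π, g x - f mod π ^ n)`. -/
noncomputable def psi (π : R) (n : ℕ) (x : R) : R × R →+ GG π n where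
  toFun v := (Ideal.Quotient.mk _ v.2, Ideal.Quotient.mk _ (v.2 * x - v.1))
  map_zero' := by simp
  map_add' v w := by
    ext
    · simp
    · simp only [Prod.snd_add, Prod.fst_add]
      rw [← map_add]
      congr 1
      ring

lemma psi_surj (π : R) (n : ℕ) (x : R) : Function.Surjective (psi π n x) := by
  rintro ⟨c, e⟩
  obtain ⟨g, rfl⟩ := Ideal.Quotient.mk_surjective c
  obtain ⟨r, rfl⟩ := Ideal.Quotient.mk_surjective e
  refine ⟨(g * x - r, g), ?_⟩
  show (Ideal.Quotient.mk _ g, Ideal.Quotient.mk _ (g * x - (g * x - r))) = _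
  rw [sub_sub_cancel]

lemma psi_zero {π : R} {n : ℕ} {x : R} {v : R × R} (h : psi π n x v = 0) : π ^ n ∣ v.2 * x - v.1 := by
  have h1 : (Ideal.Quotient.mk (Ideal.span {π ^ n}) (v.2 * x - v.1)) = 0 := congrArg Prod.snd h
  rw [Ideal.Quotient.eq_zero_iff_mem, Ideal.mem_span_singleton] at h1
  exact h1

lemma card_GG [IsDomain R] {π : R} {N : ℕ} (H : Dig π N) (n : ℕ) : Nat.card (GG π n) = N * N ^ n := by
  unfold GG
  rw [Nat.card_prod, cardQ H 1, cardQ H n, pow_one]

namespace Dat

variable (D : Dat R)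

/-- the pairs of elements of a ball -/
noncomputable def box2 (X : ℝ) : Finset (R × R) := D.box X ×ˢ D.box X

lemma mem_box2 {X : ℝ} {v : R × R} : v ∈ D.box2 X ↔ D.h v.1 ≤ X ∧ D.h v.2 ≤ X := by
  unfold box2
  rw [mem_product, mem_box, mem_box]

lemma gen2 {X : ℝ} (hX : D.X0 ≤ X) : AddSubgroup.closure ((D.box2 X : Finset (R × R)) : Set (R × R)) = ⊤ := by
  rw [eq_top_iff]
  have h0X : (0 : ℝ) ≤ X := by linarith [D.hX0]
  have h1 : ∀ f : R, ((f, 0) : R × R) ∈ AddSubgroup.closure ((D.box2 X : Finset (R × R)) : Set (R × R)) := by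
    intro f
    have hf : f ∈ AddSubgroup.closure {r | D.h r ≤ D.X0} := by rw [D.gen]; trivial
    induction hf using AddSubgroup.closure_induction with
    | mem x hx =>
      apply AddSubgroup.subset_closure
      rw [mem_coe, mem_box2]
      exact ⟨le_trans hx hX, by simp only; rw [D.zero]; exact h0X⟩
    | zero => exact AddSubgroup.zero_mem _
    | add x y _ _ h2 h3 =>
      have := AddSubgroup.add_mem _ h2 h3
      simpa using this
    | neg x _ h2 =>
      have := AddSubgroup.neg_mem _ h2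
      simpa using this
  have h2 : ∀ f : R, ((0, f) : R × R) ∈ AddSubgroup.closure ((D.box2 X : Finset (R × R)) : Set (R × R)) := by
    intro f
    have hf : f ∈ AddSubgroup.closure {r | D.h r ≤ D.X0} := by rw [D.gen]; trivial
    induction hf using AddSubgroup.closure_induction with
    | mem x hx =>
      apply AddSubgroup.subset_closure
      rw [mem_coe, mem_box2]
      exact ⟨by simp only; rw [D.zero]; exact h0X, le_trans hx hX⟩
    | zero => exact AddSubgroup.zero_mem _
    | add x y _ _ h2 h3 =>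
      have := AddSubgroup.add_mem _ h2 h3
      simpa using this
    | neg x _ h2 =>
      have := AddSubgroup.neg_mem _ h2
      simpa using this
  rintro ⟨f, g⟩ _
  have := AddSubgroup.add_mem _ (h1 f) (h2 g)
  simpa using this

open Classical in
/-- elements of iterated sums come from bounded pairs -/
lemma iter_pre (π : R) (n : ℕ) (x : R) (X : ℝ) (j : ℕ) :
    ∀ y ∈ iter ((D.box2 X).image (psi π n x)) j, ∃ v : R × R, D.h v.1 ≤ j * X ∧ D.h v.2 ≤ j * X ∧ psi π n x v = y := by
  induction j with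
  | zero =>
    intro y hy
    have hy0 : y = 0 := by simpa [iter] using hy
    refine ⟨0, ?_, ?_, ?_⟩
    · simp [D.zero]
    · simp [D.zero]
    · rw [map_zero, hy0]
  | succ j ih =>
    intro y hy
    have hy' : y ∈ iter ((D.box2 X).image (psi π n x)) j + (D.box2 X).image (psi π n x) := hy
    rw [mem_add] at hy'
    obtain ⟨y1, hy1, y2, hy2, rfl⟩ := hy'
    obtain ⟨v, hv1, hv2, rfl⟩ := ih y1 hy1
    rw [mem_image] at hy2
    obtain ⟨w, hw, rfl⟩ := hy2
    rw [mem_box2] at hw
    refine ⟨v + w, ?_, ?_, map_add _ _ _⟩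
    · refine (D.add _ _).trans ?_
      push_cast
      linarith [hw.1]
    · refine (D.add _ _).trans ?_
      push_cast
      linarith [hw.2]

open Classical in
/-- a small fraction with invertible denominator from a large image -/
lemma small [IsDomain R] {π : R} {N : ℕ} (H : Dig π N) (n : ℕ) (x : R) (X : ℝ) (hX : D.X0 ≤ X) :
    ∃ f g : R, IsCoprime g π ∧ π ^ n ∣ g * x - f ∧
      D.h f ≤ 6 * ((N : ℝ) * N ^ n / ((D.box2 X).image (psi π n x)).card) * X ∧
      D.h g ≤ 6 * ((N : ℝ) * N ^ n / ((D.box2 X).image (psi π n x)).card) * X := by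
  haveI := finQ H 1
  haveI := finQ H n
  haveI : Fintype (GG π n) := Fintype.ofFinite _
  set B := (D.box2 X).image (psi π n x) with hB
  have hX0 : 1 ≤ X := D.hX0.trans hX
  have hB0 : (0 : GG π n) ∈ B := by
    rw [hB, mem_image]
    refine ⟨0, ?_, map_zero _⟩
    rw [mem_box2]
    simp only [Prod.fst_zero, Prod.snd_zero]
    rw [D.zero]
    exact ⟨by linarith, by linarith⟩
  have hBs : ∀ b ∈ B, -b ∈ B := by
    intro b hb
    rw [hB, mem_image] at hb ⊢
    obtain ⟨v, hv, rfl⟩ := hb
    refine ⟨-v, ?_, map_neg _ _⟩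
    rw [mem_box2] at hv ⊢
    simp only [Prod.fst_neg, Prod.snd_neg]
    rw [D.neg, D.neg]
    exact hv
  have hgen : AddSubgroup.closure (B : Set (GG π n)) = ⊤ := by
    rw [hB, coe_image, ← AddMonoidHom.map_closure, D.gen2 hX]
    exact AddSubgroup.map_top_of_surjective _ (psi_surj π n x)
  have hcard : (Fintype.card (GG π n) : ℝ) = (N : ℝ) * N ^ n := by
    rw [← Nat.card_eq_fintype_card, card_GG H n]
    push_cast
    ring
  have hBpos : (0 : ℝ) < B.card := by
    have : 0 < B.card := card_pos.2 ⟨0, hB0⟩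
    exact_mod_cast this
  set κ : ℝ := (N : ℝ) * N ^ n / B.card with hκ
  have hκ1 : 1 ≤ κ := by
    rw [hκ, le_div_iff₀ hBpos, one_mul, ← hcard]
    exact_mod_cast card_le_univ B
  set K : ℕ := ⌈κ⌉₊ with hK
  have hK1 : κ ≤ K := Nat.le_ceil _
  have hK2 : (K : ℝ) ≤ 2 * κ := by
    have := Nat.ceil_lt_add_one (by linarith : 0 ≤ κ)
    rw [← hK] at this
    linarith
  have hKc : Fintype.card (GG π n) ≤ K * B.card := by
    have : (Fintype.card (GG π n) : ℝ) ≤ K * B.card := by
      rw [hcard]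
      have h1 : (N : ℝ) * N ^ n = κ * B.card := by
        rw [hκ]
        field_simp
      rw [h1]
      exact mul_le_mul_of_nonneg_right hK1 hBpos.le
    exact_mod_cast this
  have h1 := diam B hBs hB0 hgen K hKc (1, 0)
  obtain ⟨v, hv1, hv2, hv3⟩ := D.iter_pre π n x X (3 * K) _ h1
  have hbd : ((3 * K : ℕ) : ℝ) * X ≤ 6 * κ * X := by
    push_cast
    apply mul_le_mul_of_nonneg_right _ (by linarith)
    linarith
  refine ⟨v.1, v.2, ?_, ?_, hv1.trans hbd, hv2.trans hbd⟩
  · have h2 : Ideal.Quotient.mk (Ideal.span {π ^ 1}) v.2 = 1 := congrArg Prod.fst hv3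
    have h3 : Ideal.Quotient.mk (Ideal.span {π ^ 1}) v.2 = Ideal.Quotient.mk (Ideal.span {π ^ 1}) 1 := by rw [h2, map_one]
    rw [Ideal.Quotient.mk_eq_mk_iff_sub_mem, Ideal.mem_span_singleton, pow_one] at h3
    obtain ⟨s, hs⟩ := h3
    refine ⟨1, -s, ?_⟩
    linear_combination hs
  · have h2 : Ideal.Quotient.mk (Ideal.span {π ^ n}) (v.2 * x - v.1) = 0 := congrArg Prod.snd hv3
    rw [Ideal.Quotient.eq_zero_iff_mem, Ideal.mem_span_singleton] at h2
    exact h2

end Dat

end Pool.Agent.K9h54.PA
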