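import Mathlib
import Pool.Agent.K9h54.PA.C5

set_option autoImplicit false

/-! The images are large on average. -/

namespace Pool.Agent.K9h54.PA

open Finset
open scoped Pointwise

variable {R : Type*} [CommRing R]

namespace Dat

variable (D : Dat R)

open Classical in
lemma pairs_le (π : R) (n : ℕ) (x : R) (X : ℝ) :
    ((D.box2 X ×ˢ D.box2 X).filter (fun p => psi π n x p.1 = psi π n x p.2)).card ≤
      (D.box2 X).card * ((D.box2 (2 * X)).filter (fun v => π ^ n ∣ v.2 * x - v.1)).card := by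
  rw [← card_product]
  apply card_le_card_of_injOn (fun p => (p.1, p.1 - p.2))
  · intro p hp
    rw [mem_coe, mem_filter, mem_product, mem_box2, mem_box2] at hp
    rw [mem_coe, mem_product, mem_filter, mem_box2, mem_box2]
    refine ⟨hp.1.1, ⟨?_, ?_⟩, ?_⟩
    · refine (D.sub _ _).trans ?_
      linarith [hp.1.1.1, hp.1.2.1]
    · refine (D.sub _ _).trans ?_
      linarith [hp.1.1.2, hp.1.2.2]
    · apply psi_zero
      rw [map_sub, hp.2, sub_self]
  · intro p _ q _ h
    simp only [Prod.mk.injEq] at h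
    refine Prod.ext h.1 ?_
    have h1 := h.2
    rw [h.1] at h1
    exact sub_right_injective h1

open Classical in
/-- the average of the reciprocals of the sizes of the images -/
lemma avg_image [IsDomain R] {π : R} {N : ℕ} (H : Dig π N) (n : ℕ) (X M : ℝ) (hX : D.X0 ≤ X)
    (hX1 : (N : ℝ) ^ n ≤ X ^ (2 * D.d)) (hX2 : X ^ (2 * D.d) ≤ M * (N : ℝ) ^ n) :
    ∑ a : Fin n → Fin N, (N : ℝ) * N ^ n / ((D.box2 X).image (psi π n (val π a))).card ≤
      (1 + D.CS * 4 ^ D.d * M) / D.c1 ^ 2 * (N * N ^ n) := by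
  have hX0 : 1 ≤ X := D.hX0.trans hX
  have hc1 := D.hc1
  have hCS := D.CS_pos
  have hN2 := H.hN
  have hN0 : (0 : ℝ) < N := by exact_mod_cast (by omega : 0 < N)
  have hNn : (0 : ℝ) < (N : ℝ) ^ n := by positivity
  set b : ℝ := ((D.box2 X).card : ℝ) with hb
  have hb1 : D.c1 ^ 2 * X ^ (2 * D.d) ≤ b := by
    have h1 := D.low' hX0
    have e : b = ((D.box X).card : ℝ) * (D.box X).card := by
      rw [hb]
      unfold box2
      rw [card_product]
      push_cast
      ring
    rw [e, two_mul, pow_add]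
    have h2 : 0 ≤ D.c1 * X ^ D.d := by positivity
    nlinarith
  have hb0 : 0 < b := by
    have : 0 < D.c1 ^ 2 * X ^ (2 * D.d) := by positivity
    linarith
  set Z : (Fin n → Fin N) → ℕ := fun a => ((D.box2 (2 * X)).filter (fun v => π ^ n ∣ v.2 * val π a - v.1)).card with hZ
  have h1 : ∀ a : Fin n → Fin N, (N : ℝ) * N ^ n / ((D.box2 X).image (psi π n (val π a))).card ≤ (N * N ^ n / b) * Z a := by
    intro a
    have h2 := card_image_ge (D.box2 X) (psi π n (val π a))
    have h3 : (((D.box2 X ×ˢ D.box2 X).filter (fun p => psi π n (val π a) p.1 = psi π n (val π a) p.2)).card : ℝ) ≤ b * Z a := by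
      have h3' := D.pairs_le π n (val π a) X
      rw [hb, hZ]
      exact_mod_cast h3'
    set I : ℝ := (((D.box2 X).image (psi π n (val π a))).card : ℝ) with hI
    have hI0 : 0 ≤ I := Nat.cast_nonneg _
    have h4 : b ^ 2 ≤ I * (b * Z a) := by
      refine le_trans ?_ (mul_le_mul_of_nonneg_left h3 hI0)
      exact h2
    have h5 : b ≤ I * Z a := by
      have : b * b ≤ (I * Z a) * b := by nlinarith
      exact le_of_mul_le_mul_right this hb0
    have hI1 : 0 < I := by
      rcases hI0.eq_or_lt with h | h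
      · rw [← h] at h5; simp at h5; linarith
      · exact h
    rw [div_le_iff₀ hI1]
    have h6 : 0 < (N : ℝ) * N ^ n := by positivity
    calc (N : ℝ) * N ^ n = (N * N ^ n / b) * b := by field_simp
      _ ≤ (N * N ^ n / b) * (I * Z a) := mul_le_mul_of_nonneg_left h5 (by positivity)
      _ = _ := by ring
  have h2 : ∑ a, (Z a : ℝ) ≤ (N : ℝ) ^ n + D.CS * (2 * X) ^ (2 * D.d) := by
    have e : ∑ a, (Z a : ℝ) = ∑ v ∈ D.box2 (2 * X), (cnt π N n v.1 v.2 : ℝ) := by
      have h3 : ∀ a : Fin n → Fin N, (Z a : ℝ) = ∑ v ∈ D.box2 (2 * X), (if π ^ n ∣ v.2 * val π a - v.1 then (1 : ℝ) else 0) := by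
        intro a
        rw [hZ, ← sum_filter, sum_const, nsmul_eq_mul, mul_one]
      rw [sum_congr rfl fun a _ => h3 a, sum_comm]
      apply sum_congr rfl
      intro v _
      unfold cnt
      rw [← sum_filter, sum_const, nsmul_eq_mul, mul_one]
    rw [e]
    have h3 := D.total H n (2 * X) (by linarith)
    have h4 : ∑ v ∈ D.box2 (2 * X), (cnt π N n v.1 v.2 : ℝ) =
        ∑ v ∈ (D.box2 (2 * X)).filter (fun v => v = 0), (cnt π N n v.1 v.2 : ℝ) +
        ∑ v ∈ (D.box2 (2 * X)).filter (fun v => ¬ v = 0), (cnt π N n v.1 v.2 : ℝ) :=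
      (sum_filter_add_sum_filter_not _ _ _).symm
    rw [h4]
    apply add_le_add
    · have h5 : (D.box2 (2 * X)).filter (fun v => v = 0) ⊆ {0} := by
        intro v hv
        rw [mem_filter] at hv
        rw [mem_singleton]
        exact hv.2
      refine (sum_le_sum_of_subset_of_nonneg h5 (fun _ _ _ => Nat.cast_nonneg _)).trans ?_
      rw [sum_singleton]
      exact_mod_cast cnt_total n (0 : R) (0 : R)
    · exact h3
  calc ∑ a : Fin n → Fin N, (N : ℝ) * N ^ n / ((D.box2 X).image (psi π n (val π a))).card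
      ≤ ∑ a, (N * N ^ n / b) * Z a := sum_le_sum fun a _ => h1 a
    _ = (N * N ^ n / b) * ∑ a, (Z a : ℝ) := by rw [mul_sum]
    _ ≤ (N * N ^ n / b) * ((N : ℝ) ^ n + D.CS * (2 * X) ^ (2 * D.d)) := mul_le_mul_of_nonneg_left h2 (by positivity)
    _ ≤ (N * N ^ n / b) * ((1 + D.CS * 4 ^ D.d * M) * (N : ℝ) ^ n) := by
        apply mul_le_mul_of_nonneg_left _ (by positivity)
        have e : (2 * X) ^ (2 * D.d) = 4 ^ D.d * X ^ (2 * D.d) := by
          rw [mul_pow, pow_mul]
          norm_num
        rw [e]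
        have h3 : D.CS * (4 ^ D.d * X ^ (2 * D.d)) ≤ D.CS * (4 ^ D.d * (M * (N : ℝ) ^ n)) := by gcongr
        linarith
    _ ≤ (N * N ^ n / (D.c1 ^ 2 * (N : ℝ) ^ n)) * ((1 + D.CS * 4 ^ D.d * M) * (N : ℝ) ^ n) := by
        have hM0 : 0 ≤ M := by
          have h3 : 0 < X ^ (2 * D.d) := by positivity
          by_contra hcon
          push Not at hcon
          have : M * (N : ℝ) ^ n < 0 := mul_neg_of_neg_of_pos hcon hNn
          linarith
        apply mul_le_mul_of_nonneg_right _ (by positivity)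
        apply div_le_div_of_nonneg_left (by positivity) (by positivity)
        refine le_trans ?_ hb1
        exact mul_le_mul_of_nonneg_left hX1 (by positivity)
    _ = (1 + D.CS * 4 ^ D.d * M) / D.c1 ^ 2 * (N * N ^ n) := by
        field_simp

end Dat

end Pool.Agent.K9h54.PA
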