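import Mathlib
import Pool.Agent.K9h54.PA.C6

set_option autoImplicit false

/-! The average complexity of finite sequences. -/

namespace Pool.Agent.K9h54.PA

open Finset

variable {R : Type*} [CommRing R]

/-- The complexity of a finite sequence: the least size of a fraction `f / g`, `g` invertible modulo `π`, whose digit
sequence is an extension of the sequence. -/
noncomputable def lam (φ : R → ℝ) (π : R) (N n : ℕ) (a : Fin n → Fin N) : ℝ :=
  sInf {s : ℝ | ∃ b : ℕ → ℕ, (∀ i, b i < N) ∧ (∀ i : Fin n, b i = a i) ∧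
    ∃ f g : R, Outputs π b f g ∧ s = max (φ f) (φ g)}

lemma not_unit {π : R} {N : ℕ} (H : Dig π N) : ¬ IsUnit π := by
  intro h
  have h1 : π ∣ ((1 : ℤ) : R) := by
    rw [Int.cast_one]
    exact h.dvd
  have h2 := H.dvd 1 h1
  have h3 := Int.le_of_dvd one_pos h2
  have := H.hN
  omega

lemma coprime_ne {π : R} {N : ℕ} (H : Dig π N) {g : R} (hg : IsCoprime g π) : g ≠ 0 := by
  rintro rfl
  exact not_unit H (isCoprime_zero_left.1 hg)

/-- a staircase bound -/
lemma stairs (t : ℝ) (J : ℕ) (hJ : t ≤ J * Real.log 2) :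
    t ≤ ((range J).filter (fun j : ℕ => (j : ℝ) * Real.log 2 < t)).card := by
  have hl0 : 0 < Real.log 2 := Real.log_pos (by norm_num)
  have hl1 : Real.log 2 ≤ 1 := by
    have := Real.log_two_lt_d9
    linarith
  rcases le_or_gt t 0 with h | h
  · exact h.trans (Nat.cast_nonneg _)
  · set m : ℕ := ⌈t / Real.log 2⌉₊ with hm
    have h1 : t / Real.log 2 ≤ m := Nat.le_ceil _
    have h2 : m ≤ J := by
      apply Nat.ceil_le.2
      rw [div_le_iff₀ hl0]
      exact hJ
    have hsub : range m ⊆ (range J).filter (fun j : ℕ => (j : ℝ) * Real.log 2 < t) := by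
      intro j hj
      rw [mem_range] at hj
      rw [mem_filter, mem_range]
      refine ⟨by omega, ?_⟩
      have h3 : (j : ℝ) < t / Real.log 2 := Nat.lt_ceil.1 hj
      rwa [lt_div_iff₀ hl0] at h3
    have h4 := card_le_card hsub
    rw [card_range] at h4
    have h5 : t ≤ t / Real.log 2 := by
      rw [le_div_iff₀ hl0]
      nlinarith
    have h6 : (m : ℝ) ≤ ((range J).filter (fun j : ℕ => (j : ℝ) * Real.log 2 < t)).card := by exact_mod_cast h4
    linarith

namespace Dat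

variable (D : Dat R)

lemma max_phi {π : R} {N : ℕ} (H : Dig π N) (φ : R → ℝ) (h0 : φ 0 ≤ 0)
    (hφ : ∀ r, r ≠ 0 → φ r = D.d * (Real.log (D.h r) / Real.log N)) (f g : R) (hg : g ≠ 0) :
    max (φ f) (φ g) = D.d * (Real.log (max (D.h f) (D.h g)) / Real.log N) := by
  have hL : 0 < Real.log N := Real.log_pos (by have := H.hN; exact_mod_cast (by omega : 1 < N))
  have hg1 := D.pos g hg
  have hd0 : (0 : ℝ) ≤ D.d := Nat.cast_nonneg _
  by_cases hf : f = 0
  · rw [hf, D.zero, max_eq_right (by linarith : (0 : ℝ) ≤ D.h g), max_eq_right]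
    · exact hφ g hg
    · rw [hφ g hg]
      have : 0 ≤ (D.d : ℝ) * (Real.log (D.h g) / Real.log N) := by
        have := Real.log_nonneg hg1
        positivity
      linarith
  · have hf1 := D.pos f hf
    rw [hφ f hf, hφ g hg]
    rcases le_total (D.h f) (D.h g) with h | h
    · rw [max_eq_right h, max_eq_right]
      exact mul_le_mul_of_nonneg_left (div_le_div_of_nonneg_right (Real.log_le_log (by linarith) h) hL.le) hd0
    · rw [max_eq_left h, max_eq_left]
      exact mul_le_mul_of_nonneg_left (div_le_div_of_nonneg_right (Real.log_le_log (by linarith) h) hL.le) hd0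

/-- the set of the values -/
lemma set_eq [IsDomain R] {π : R} {N : ℕ} (H : Dig π N) (φ : R → ℝ) (h0 : φ 0 ≤ 0)
    (hφ : ∀ r, r ≠ 0 → φ r = D.d * (Real.log (D.h r) / Real.log N)) {n : ℕ} (a : Fin n → Fin N) :
    {s : ℝ | ∃ b : ℕ → ℕ, (∀ i, b i < N) ∧ (∀ i : Fin n, b i = a i) ∧
      ∃ f g : R, Outputs π b f g ∧ s = max (φ f) (φ g)} =
    {s : ℝ | ∃ f g : R, (IsCoprime g π ∧ π ^ n ∣ g * val π a - f) ∧
      s = D.d * (Real.log (max (D.h f) (D.h g)) / Real.log N)} := by
  ext s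
  simp only [Set.mem_setOf_eq]
  constructor
  · rintro ⟨b, hb, hba, f, g, hout, rfl⟩
    exact ⟨f, g, (ext_iff H a f g).1 ⟨b, hb, hba, hout⟩, D.max_phi H φ h0 hφ f g (coprime_ne H hout.1)⟩
  · rintro ⟨f, g, h, rfl⟩
    obtain ⟨b, hb, hba, hout⟩ := (ext_iff H a f g).2 h
    exact ⟨b, hb, hba, f, g, hout, (D.max_phi H φ h0 hφ f g (coprime_ne H hout.1)).symm⟩

lemma bdd [IsDomain R] {π : R} {N : ℕ} (H : Dig π N) {n : ℕ} (a : Fin n → Fin N) :
    BddBelow {s : ℝ | ∃ f g : R, (IsCoprime g π ∧ π ^ n ∣ g * val π a - f) ∧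
      s = D.d * (Real.log (max (D.h f) (D.h g)) / Real.log N)} := by
  refine ⟨0, ?_⟩
  rintro s ⟨f, g, h, rfl⟩
  have hL : 0 < Real.log N := Real.log_pos (by have := H.hN; exact_mod_cast (by omega : 1 < N))
  have hg1 := D.pos g (coprime_ne H h.1)
  have := Real.log_nonneg (hg1.trans (le_max_right (D.h f) (D.h g)))
  positivity

/-- the constant of the theorem -/
noncomputable def CC (N : ℕ) : ℝ :=
  D.d + D.d / Real.log N * (Real.log (6 * D.X0) + (1 + D.CS * 4 ^ D.d * D.X0 ^ (2 * D.d)) / D.c1 ^ 2) +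
    D.d / Real.log N * (2 * D.c2 ^ 2)

open Classical in
/-- the upper bound -/
lemma upper [IsDomain R] {π : R} {N : ℕ} (H : Dig π N) (φ : R → ℝ) (h0 : φ 0 ≤ 0)
    (hφ : ∀ r, r ≠ 0 → φ r = D.d * (Real.log (D.h r) / Real.log N)) (n : ℕ) :
    ∑ a : Fin n → Fin N, lam φ π N n a ≤ (N : ℝ) ^ n * ((n : ℝ) / 2 + D.d +
      D.d / Real.log N * (Real.log (6 * D.X0) + (1 + D.CS * 4 ^ D.d * D.X0 ^ (2 * D.d)) / D.c1 ^ 2)) := by
  have hN2 := H.hN
  have hN0 : (0 : ℝ) < N := by exact_mod_cast (by omega : 0 < N)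
  have hL : 0 < Real.log N := Real.log_pos (by exact_mod_cast (by omega : 1 < N))
  have hd1 : (1 : ℝ) ≤ D.d := by exact_mod_cast D.hd
  have hX0 := D.hX0
  set M0 : ℝ := (N : ℝ) ^ ((n : ℝ) / (2 * D.d)) with hM0
  have hM1 : 1 ≤ M0 := Real.one_le_rpow (by exact_mod_cast (by omega : 1 ≤ N)) (by positivity)
  have hM2 : M0 ^ (2 * D.d) = (N : ℝ) ^ n := by
    rw [hM0, ← Real.rpow_natCast, ← Real.rpow_mul hN0.le]
    push_cast
    rw [div_mul_cancel₀ _ (by positivity), Real.rpow_natCast]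
  have hMlog : Real.log M0 = (n : ℝ) / (2 * D.d) * Real.log N := by rw [hM0, Real.log_rpow hN0]
  set X : ℝ := D.X0 * M0 with hX
  have hX1 : D.X0 ≤ X := by rw [hX]; nlinarith
  have hXpow : X ^ (2 * D.d) = D.X0 ^ (2 * D.d) * (N : ℝ) ^ n := by rw [hX, mul_pow, hM2]
  have havg := D.avg_image H n X (D.X0 ^ (2 * D.d)) hX1 (by
    rw [hXpow]
    have : (1 : ℝ) ≤ D.X0 ^ (2 * D.d) := one_le_pow₀ hX0
    have h3 : (0 : ℝ) < (N : ℝ) ^ n := by positivity
    nlinarith) (by rw [hXpow])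
  set C' : ℝ := (1 + D.CS * 4 ^ D.d * D.X0 ^ (2 * D.d)) / D.c1 ^ 2 with hC'
  set κ : (Fin n → Fin N) → ℝ := fun a => (N : ℝ) * N ^ n / ((D.box2 X).image (psi π n (val π a))).card with hκ
  have hXpos : 0 < X := by linarith
  have h1 : ∀ a : Fin n → Fin N, lam φ π N n a ≤ D.d / Real.log N * (Real.log (6 * D.X0) + Real.log M0 + Real.log N + κ a / N) := by
    intro a
    obtain ⟨f, g, hg, hdiv, hf1, hg1⟩ := D.small H n (val π a) X hX1
    have hκa : κ a = (N : ℝ) * N ^ n / ((D.box2 X).image (psi π n (val π a))).card := rfl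
    rw [← hκa] at hf1 hg1
    have hκ0 : 0 < κ a := by
      by_contra hcon
      push Not at hcon
      have h2 := D.pos g (coprime_ne H hg)
      have : 6 * κ a * X ≤ 0 := by nlinarith
      linarith
    have h2 : lam φ π N n a ≤ D.d * (Real.log (max (D.h f) (D.h g)) / Real.log N) := by
      unfold lam
      rw [D.set_eq H φ h0 hφ a]
      exact csInf_le (D.bdd H a) ⟨f, g, ⟨hg, hdiv⟩, rfl⟩
    refine h2.trans ?_
    have h3 : Real.log (max (D.h f) (D.h g)) ≤ Real.log (6 * κ a * X) := by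
      apply Real.log_le_log
      · exact lt_of_lt_of_le (by linarith [D.pos g (coprime_ne H hg)]) (le_max_right _ _)
      · exact max_le hf1 hg1
    have h4 : Real.log (6 * κ a * X) = Real.log (6 * D.X0) + Real.log M0 + Real.log N + Real.log (κ a / N) := by
      have e : 6 * κ a * X = (6 * D.X0) * M0 * N * (κ a / N) := by
        rw [hX]
        field_simp
      rw [e, Real.log_mul (by positivity) (by positivity), Real.log_mul (by positivity) (by positivity),
        Real.log_mul (by positivity) (by positivity)]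
    have h5 : Real.log (κ a / N) ≤ κ a / N := (Real.log_le_sub_one_of_pos (by positivity)).trans (by linarith)
    have h6 : Real.log (max (D.h f) (D.h g)) ≤ Real.log (6 * D.X0) + Real.log M0 + Real.log N + κ a / N := by linarith
    calc (D.d : ℝ) * (Real.log (max (D.h f) (D.h g)) / Real.log N) =
          D.d / Real.log N * Real.log (max (D.h f) (D.h g)) := by ring
      _ ≤ _ := mul_le_mul_of_nonneg_left h6 (by positivity)
  refine (sum_le_sum fun a _ => h1 a).trans ?_
  rw [← mul_sum, sum_add_distrib, sum_const, nsmul_eq_mul, card_univ]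
  have hcard : ((Fintype.card (Fin n → Fin N) : ℕ) : ℝ) = (N : ℝ) ^ n := by
    rw [Fintype.card_fun, Fintype.card_fin, Fintype.card_fin]
    push_cast
    rfl
  rw [hcard, ← sum_div]
  have h2 : (∑ a, κ a) / N ≤ C' * (N : ℝ) ^ n := by
    rw [div_le_iff₀ hN0]
    refine havg.trans (le_of_eq ?_)
    ring
  have h3 : (D.d : ℝ) / Real.log N * ((N : ℝ) ^ n * (Real.log (6 * D.X0) + Real.log M0 + Real.log N) + (∑ a, κ a) / N) ≤
      D.d / Real.log N * ((N : ℝ) ^ n * (Real.log (6 * D.X0) + Real.log M0 + Real.log N) + C' * (N : ℝ) ^ n) := by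
    apply mul_le_mul_of_nonneg_left _ (by positivity)
    linarith
  refine h3.trans (le_of_eq ?_)
  rw [hMlog]
  field_simp
  ring

open Classical in
/-- few sequences have small complexity -/
lemma few [IsDomain R] {π : R} {N : ℕ} (H : Dig π N) (φ : R → ℝ) (h0 : φ 0 ≤ 0)
    (hφ : ∀ r, r ≠ 0 → φ r = D.d * (Real.log (D.h r) / Real.log N)) (n : ℕ) (Z : ℝ) (hZ : 0 < Z) :
    (((univ : Finset (Fin n → Fin N)).filter (fun a => lam φ π N n a < D.d * (Real.log Z / Real.log N))).card : ℝ) ≤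
      D.c2 ^ 2 * Z ^ (2 * D.d) := by
  have hN2 := H.hN
  have hL : 0 < Real.log N := Real.log_pos (by exact_mod_cast (by omega : 1 < N))
  have hd1 : (0 : ℝ) < D.d := by exact_mod_cast D.hd
  set S := (univ : Finset (Fin n → Fin N)).filter (fun a => lam φ π N n a < D.d * (Real.log Z / Real.log N)) with hS
  have key : ∀ a ∈ S, ∃ v : R × R, (IsCoprime v.2 π ∧ π ^ n ∣ v.2 * val π a - v.1) ∧ max (D.h v.1) (D.h v.2) ≤ Z := by
    intro a ha
    rw [hS, mem_filter] at ha
    have h1 := ha.2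
    unfold lam at h1
    rw [D.set_eq H φ h0 hφ a] at h1
    have hne : {s : ℝ | ∃ f g : R, (IsCoprime g π ∧ π ^ n ∣ g * val π a - f) ∧
      s = D.d * (Real.log (max (D.h f) (D.h g)) / Real.log N)}.Nonempty :=
      ⟨_, val π a, 1, ⟨isCoprime_one_left, by rw [one_mul, sub_self]; exact dvd_zero _⟩, rfl⟩
    obtain ⟨s, ⟨f, g, hfg, rfl⟩, hs⟩ := exists_lt_of_csInf_lt hne h1
    refine ⟨(f, g), hfg, ?_⟩
    have h2 : Real.log (max (D.h f) (D.h g)) < Real.log Z := by
      have h3 := lt_of_mul_lt_mul_left hs hd1.le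
      rwa [div_lt_div_iff_of_pos_right hL] at h3
    have h4 : 0 < max (D.h f) (D.h g) := lt_of_lt_of_le (by linarith [D.pos g (coprime_ne H hfg.1)]) (le_max_right _ _)
    exact ((Real.log_lt_log_iff h4 hZ).1 h2).le
  rcases S.eq_empty_or_nonempty with hemp | hne
  · rw [hemp, card_empty, Nat.cast_zero]
    have := D.hc2
    positivity
  · -- Z is at least 1
    have hZ1 : 1 ≤ Z := by
      obtain ⟨a, ha⟩ := hne
      obtain ⟨v, hv, hvZ⟩ := key a ha
      have h1 := D.pos v.2 (coprime_ne H hv.1)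
      exact h1.trans ((le_max_right _ _).trans hvZ)
    choose! F hF1 hF2 using key
    have h1 : S.card ≤ (D.box2 Z).card := by
      apply card_le_card_of_injOn F
      · intro a ha
        rw [mem_coe, mem_box2]
        have := hF2 a ha
        exact ⟨(le_max_left _ _).trans this, (le_max_right _ _).trans this⟩
      · intro a ha b hb hab
        have h2 := hF1 a ha
        have h3 := hF1 b hb
        rw [hab] at h2
        have h4 := dvd_sub h2.2 h3.2
        have e : (F b).2 * val π a - (F b).1 - ((F b).2 * val π b - (F b).1) = (F b).2 * (val π a - val π b) := by ring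
        rw [e] at h4
        exact val_inj H n a b (coprime_pow_dvd h3.1 n _ h4)
    have h2 : ((D.box2 Z).card : ℝ) ≤ D.c2 ^ 2 * Z ^ (2 * D.d) := by
      unfold box2
      rw [card_product]
      push_cast
      have h3 := D.up' hZ1
      have h4 : (0 : ℝ) ≤ ((D.box Z).card : ℝ) := Nat.cast_nonneg _
      calc ((D.box Z).card : ℝ) * (D.box Z).card ≤ (D.c2 * Z ^ D.d) * (D.c2 * Z ^ D.d) := mul_le_mul h3 h3 h4 (h4.trans h3)
        _ = _ := by rw [two_mul, pow_add]; ring
    exact (by exact_mod_cast h1 : (S.card : ℝ) ≤ ((D.box2 Z).card : ℝ)).trans h2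

open Classical in
/-- the lower bound -/
lemma lower [IsDomain R] {π : R} {N : ℕ} (H : Dig π N) (φ : R → ℝ) (h0 : φ 0 ≤ 0)
    (hφ : ∀ r, r ≠ 0 → φ r = D.d * (Real.log (D.h r) / Real.log N)) (n : ℕ) :
    (N : ℝ) ^ n * ((n : ℝ) / 2 - D.d / Real.log N * (2 * D.c2 ^ 2)) ≤ ∑ a : Fin n → Fin N, lam φ π N n a := by
  have hN2 := H.hN
  have hN0 : (0 : ℝ) < N := by exact_mod_cast (by omega : 0 < N)
  have hL : 0 < Real.log N := Real.log_pos (by exact_mod_cast (by omega : 1 < N))
  have hd1 : (0 : ℝ) < D.d := by exact_mod_cast D.hd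
  have hl2 : 0 < Real.log 2 := Real.log_pos (by norm_num)
  set M0 : ℝ := (N : ℝ) ^ ((n : ℝ) / (2 * D.d)) with hM0
  have hM1 : 1 ≤ M0 := Real.one_le_rpow (by exact_mod_cast (by omega : 1 ≤ N)) (by positivity)
  have hM2 : M0 ^ (2 * D.d) = (N : ℝ) ^ n := by
    rw [hM0, ← Real.rpow_natCast, ← Real.rpow_mul hN0.le]
    push_cast
    rw [div_mul_cancel₀ _ (by positivity), Real.rpow_natCast]
  have hMlog : Real.log M0 = (n : ℝ) / (2 * D.d) * Real.log N := by rw [hM0, Real.log_rpow hN0]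
  set t : (Fin n → Fin N) → ℝ := fun a => Real.log M0 - Real.log N / D.d * lam φ π N n a with ht
  obtain ⟨J, hJ⟩ : ∃ J : ℕ, ∀ a, t a ≤ J * Real.log 2 := by
    obtain ⟨J, hJ⟩ := exists_nat_ge ((∑ a, |t a|) / Real.log 2)
    refine ⟨J, fun a => ?_⟩
    rw [div_le_iff₀ hl2] at hJ
    have := single_le_sum (f := fun a => |t a|) (fun a _ => abs_nonneg _) (mem_univ a)
    exact (le_abs_self _).trans (this.trans hJ)
  have h1 : ∑ a, t a ≤ ∑ j ∈ range J, (((univ : Finset (Fin n → Fin N)).filter (fun a => (j : ℝ) * Real.log 2 < t a)).card : ℝ) := by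
    have h2 : ∀ a, t a ≤ ∑ j ∈ range J, (if (j : ℝ) * Real.log 2 < t a then (1 : ℝ) else 0) := by
      intro a
      refine (stairs (t a) J (hJ a)).trans (le_of_eq ?_)
      rw [← sum_filter, sum_const, nsmul_eq_mul, mul_one]
    refine (sum_le_sum fun a _ => h2 a).trans (le_of_eq ?_)
    rw [sum_comm]
    apply sum_congr rfl
    intro j _
    rw [← sum_filter, sum_const, nsmul_eq_mul, mul_one]
  have h2 : ∀ j ∈ range J, (((univ : Finset (Fin n → Fin N)).filter (fun a => (j : ℝ) * Real.log 2 < t a)).card : ℝ) ≤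
      D.c2 ^ 2 * (N : ℝ) ^ n * (1 / 2) ^ j := by
    intro j _
    have hZ : 0 < M0 / 2 ^ j := by positivity
    have h3 := D.few H φ h0 hφ n (M0 / 2 ^ j) hZ
    have e : (univ : Finset (Fin n → Fin N)).filter (fun a => (j : ℝ) * Real.log 2 < t a) =
        (univ : Finset (Fin n → Fin N)).filter (fun a => lam φ π N n a < D.d * (Real.log (M0 / 2 ^ j) / Real.log N)) := by
      apply filter_congr
      intro a _
      rw [Real.log_div (by positivity) (by positivity), Real.log_pow, ht]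
      have e2 : (D.d : ℝ) * ((Real.log M0 - j * Real.log 2) / Real.log N) = (Real.log M0 - j * Real.log 2) / (Real.log N / D.d) := by
        field_simp
      rw [e2, lt_div_iff₀ (by positivity)]
      constructor <;> intro h <;> linarith
    rw [e]
    refine h3.trans ?_
    rw [div_pow, hM2, ← pow_mul]
    have h4 : (2 : ℝ) ^ j ≤ 2 ^ (j * (2 * D.d)) := by
      apply pow_le_pow_right₀ (by norm_num)
      have := D.hd
      nlinarith
    have h5 : (N : ℝ) ^ n / 2 ^ (j * (2 * D.d)) ≤ (N : ℝ) ^ n / 2 ^ j := div_le_div_of_nonneg_left (by positivity) (by positivity) h4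
    calc D.c2 ^ 2 * ((N : ℝ) ^ n / 2 ^ (j * (2 * D.d))) ≤ D.c2 ^ 2 * ((N : ℝ) ^ n / 2 ^ j) :=
          mul_le_mul_of_nonneg_left h5 (by positivity)
      _ = _ := by rw [one_div, inv_pow]; ring
  have h3 : ∑ a, t a ≤ D.c2 ^ 2 * (N : ℝ) ^ n * 2 := by
    refine h1.trans ((sum_le_sum h2).trans ?_)
    rw [← mul_sum]
    apply mul_le_mul_of_nonneg_left _ (by positivity)
    have h4 := geom_sum_eq (x := (1 / 2 : ℝ)) (by norm_num) J
    rw [h4]
    have : (0 : ℝ) ≤ (1 / 2) ^ J := by positivity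
    rw [div_le_iff_of_neg (by norm_num)]
    linarith
  have h4 : ∑ a, t a = (N : ℝ) ^ n * Real.log M0 - Real.log N / D.d * ∑ a, lam φ π N n a := by
    rw [ht, sum_sub_distrib, ← mul_sum, sum_const, nsmul_eq_mul, card_univ, Fintype.card_fun, Fintype.card_fin, Fintype.card_fin]
    push_cast
    ring
  rw [h4, hMlog] at h3
  have h5 : (N : ℝ) ^ n * ((n : ℝ) / (2 * D.d) * Real.log N) - D.c2 ^ 2 * (N : ℝ) ^ n * 2 ≤
      Real.log N / D.d * ∑ a, lam φ π N n a := by linarith
  have h6 := mul_le_mul_of_nonneg_left h5 (show (0 : ℝ) ≤ D.d / Real.log N by positivity)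
  have e1 : D.d / Real.log N * (Real.log N / D.d * ∑ a, lam φ π N n a) = ∑ a, lam φ π N n a := by field_simp
  rw [e1] at h6
  refine le_trans (le_of_eq ?_) h6
  field_simp

/-- the average complexity of the finite sequences -/
theorem main [IsDomain R] {π : R} {N : ℕ} (H : Dig π N) (φ : R → ℝ) (h0 : φ 0 ≤ 0)
    (hφ : ∀ r, r ≠ 0 → φ r = D.d * (Real.log (D.h r) / Real.log N)) :
    ∀ n : ℕ, |(∑ a : Fin n → Fin N, lam φ π N n a) / (N : ℝ) ^ n - n / 2| ≤ D.CC N := by
  intro n
  have hN2 := H.hN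
  have hN0 : (0 : ℝ) < N := by exact_mod_cast (by omega : 0 < N)
  have hL : 0 < Real.log N := Real.log_pos (by exact_mod_cast (by omega : 1 < N))
  have hNn : (0 : ℝ) < (N : ℝ) ^ n := by positivity
  have h1 := D.upper H φ h0 hφ n
  have h2 := D.lower H φ h0 hφ n
  have hd1 : (1 : ℝ) ≤ D.d := by exact_mod_cast D.hd
  have hCS := D.CS_pos
  have hX0 := D.hX0
  have hc1 := D.hc1
  have p1 : 0 ≤ Real.log (6 * D.X0) := Real.log_nonneg (by linarith)
  have p2 : 0 ≤ (1 + D.CS * 4 ^ D.d * D.X0 ^ (2 * D.d)) / D.c1 ^ 2 := by positivity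
  have p3 : 0 ≤ (D.d : ℝ) / Real.log N * (Real.log (6 * D.X0) + (1 + D.CS * 4 ^ D.d * D.X0 ^ (2 * D.d)) / D.c1 ^ 2) := by positivity
  have p4 : 0 ≤ (D.d : ℝ) / Real.log N * (2 * D.c2 ^ 2) := by positivity
  rw [abs_le]
  unfold CC
  constructor
  · have h3 : (n : ℝ) / 2 - D.d / Real.log N * (2 * D.c2 ^ 2) ≤ (∑ a : Fin n → Fin N, lam φ π N n a) / (N : ℝ) ^ n := by
      rw [le_div_iff₀ hNn, mul_comm]
      exact h2
    linarith
  · have h3 : (∑ a : Fin n → Fin N, lam φ π N n a) / (N : ℝ) ^ n ≤ (n : ℝ) / 2 + D.d +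
      D.d / Real.log N * (Real.log (6 * D.X0) + (1 + D.CS * 4 ^ D.d * D.X0 ^ (2 * D.d)) / D.c1 ^ 2) := by
      rw [div_le_iff₀ hNn, mul_comm]
      exact h1
    linarith

end Dat

end Pool.Agent.K9h54.PA
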