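import Mathlib
import Pool.Agent.K9h54.PA.C7

set_option autoImplicit false

/-! The rings `ℤ[π]` with basis `1, π, …, π ^ (d - 1)` and `π ^ d = ± N`. -/

namespace Pool.Agent.K9h54.PA

open Finset Module

variable {R : Type*} [CommRing R]

/-- the data -/
structure Bas (R : Type*) [CommRing R] (d N : ℕ) (π : R) (ε : ℤ) where
  b : Basis (Fin d) ℤ R
  hb : ∀ i : Fin d, b i = π ^ (i : ℕ)
  hd : 1 ≤ d
  hN : 2 ≤ N
  hε : ε = 1 ∨ ε = -1
  hπ : π ^ d = ((ε * N : ℤ) : R)

namespace Bas

variable {d N : ℕ} {π : R} {ε : ℤ} (S : Bas R d N π ε)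

/-- the weights -/
noncomputable def w (d N : ℕ) (i : ℕ) : ℝ := (N : ℝ) ^ ((i : ℝ) / d)

include S

lemma w_pos (i : ℕ) : 1 ≤ w d N i := by
  unfold w
  apply Real.one_le_rpow
  · exact_mod_cast (by have := S.hN; omega : 1 ≤ N)
  · positivity

lemma w_le (i : Fin d) : w d N i ≤ N := by
  unfold w
  have h1 : (1 : ℝ) ≤ N := by exact_mod_cast (by have := S.hN; omega : 1 ≤ N)
  have hd : (0 : ℝ) < d := by exact_mod_cast S.hd
  calc (N : ℝ) ^ (((i : ℕ) : ℝ) / d) ≤ (N : ℝ) ^ (1 : ℝ) := by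
        apply Real.rpow_le_rpow_of_exponent_le h1
        rw [div_le_one hd]
        exact_mod_cast i.2.le
    _ = N := Real.rpow_one _

lemma w_add (i j : ℕ) : w d N (i + j) = w d N i * w d N j := by
  unfold w
  have h1 : (0 : ℝ) < N := by exact_mod_cast (by have := S.hN; omega : 0 < N)
  rw [← Real.rpow_add h1]
  congr 1
  push_cast
  ring

lemma w_d : w d N d = N := by
  unfold w
  have hd : (0 : ℝ) < d := by exact_mod_cast S.hd
  rw [div_self hd.ne', Real.rpow_one]

omit S in
/-- the norm -/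
noncomputable def h (S : Bas R d N π ε) (r : R) : ℝ := ‖fun i : Fin d => (S.b.repr r i : ℝ) * w d N i‖

lemma h_le {r : R} {X : ℝ} (hX : 0 ≤ X) : S.h r ≤ X ↔ ∀ i : Fin d, |(S.b.repr r i : ℝ)| * w d N i ≤ X := by
  unfold h
  rw [pi_norm_le_iff_of_nonneg hX]
  apply forall_congr'
  intro i
  rw [norm_mul, Real.norm_eq_abs, Real.norm_eq_abs, abs_of_nonneg (by linarith [S.w_pos i] : 0 ≤ w d N i)]

lemma h_coord (r : R) (i : Fin d) : |(S.b.repr r i : ℝ)| * w d N i ≤ S.h r := by
  have := (S.h_le (r := r) (X := S.h r) (norm_nonneg _)).1 le_rfl i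
  exact this

lemma h_zero : S.h 0 = 0 := by
  unfold h
  simp only [map_zero, Finsupp.coe_zero, Pi.zero_apply, Int.cast_zero, zero_mul]
  exact norm_zero

lemma h_pos (r : R) (hr : r ≠ 0) : 1 ≤ S.h r := by
  have h1 : S.b.repr r ≠ 0 := by
    intro h
    apply hr
    exact (S.b.repr.map_eq_zero_iff).1 h
  obtain ⟨i, hi⟩ := Finsupp.ne_iff.1 h1
  simp only [Finsupp.coe_zero, Pi.zero_apply] at hi
  have h2 := S.h_coord r i
  have h3 : (1 : ℝ) ≤ |(S.b.repr r i : ℝ)| := by
    have : 1 ≤ |S.b.repr r i| := Int.one_le_abs hi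
    exact_mod_cast this
  have h4 := S.w_pos i
  nlinarith

lemma h_neg (r : R) : S.h (-r) = S.h r := by
  unfold h
  rw [← norm_neg]
  congr 1
  funext i
  simp

lemma h_add (r s : R) : S.h (r + s) ≤ S.h r + S.h s := by
  unfold h
  refine le_trans (le_of_eq ?_) (norm_add_le _ _)
  congr 1
  funext i
  simp only [map_add, Finsupp.coe_add, Pi.add_apply, Int.cast_add]
  ring

lemma h_smul (k : ℤ) (r : R) : S.h (k • r) = |(k : ℝ)| * S.h r := by
  unfold h
  rw [← Real.norm_eq_abs, ← norm_smul]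
  congr 1
  funext i
  simp only [map_smul, Finsupp.coe_smul, Pi.smul_apply, smul_eq_mul, Int.cast_mul]
  ring

lemma h_sum {ι : Type*} (s : Finset ι) (f : ι → R) : S.h (∑ i ∈ s, f i) ≤ ∑ i ∈ s, S.h (f i) := by
  classical
  induction s using Finset.induction_on with
  | empty => simp [S.h_zero]
  | insert a s ha ih =>
    rw [sum_insert ha, sum_insert ha]
    exact (S.h_add _ _).trans (by linarith)

lemma h_basis (i : Fin d) : S.h (π ^ (i : ℕ)) = w d N i := by
  rw [← S.hb i]
  apply le_antisymm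
  · rw [S.h_le (by linarith [S.w_pos i])]
    intro j
    rw [Basis.repr_self, Finsupp.single_apply]
    split_ifs with hij
    · rw [hij]; simp
    · simp only [Int.cast_zero, abs_zero, zero_mul]
      linarith [S.w_pos i]
  · have := S.h_coord (S.b i) i
    rw [Basis.repr_self, Finsupp.single_apply, if_pos rfl] at this
    simpa using this

lemma h_pow (m : ℕ) (hm : m < 2 * d) : S.h (π ^ m) ≤ w d N m := by
  rcases lt_or_ge m d with h | h
  · exact (S.h_basis ⟨m, h⟩).le
  · obtain ⟨j, rfl⟩ := Nat.exists_eq_add_of_le h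
    have hj : j < d := by omega
    have e : π ^ (d + j) = (ε * N : ℤ) • π ^ j := by
      rw [pow_add, S.hπ, zsmul_eq_mul]
    rw [e, S.h_smul, S.w_add, S.w_d]
    have h1 : |(((ε * N : ℤ)) : ℝ)| = N := by
      rcases S.hε with h2 | h2 <;> rw [h2] <;> simp
    rw [h1]
    have h2 := (S.h_basis ⟨j, hj⟩).le
    exact mul_le_mul_of_nonneg_left h2 (Nat.cast_nonneg _)

lemma h_mul (r s : R) : S.h (r * s) ≤ (d : ℝ) ^ 2 * (S.h r * S.h s) := by
  have e : r * s = ∑ i, ∑ j, (S.b.repr r i * S.b.repr s j) • π ^ ((i : ℕ) + (j : ℕ)) := by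
    conv_lhs => rw [← S.b.sum_repr r, ← S.b.sum_repr s]
    rw [sum_mul_sum]
    apply sum_congr rfl
    intro i _
    apply sum_congr rfl
    intro j _
    rw [S.hb, S.hb, smul_mul_smul_comm, ← pow_add]
  rw [e]
  refine (S.h_sum _ _).trans ?_
  have h1 : ∀ i j : Fin d, S.h ((S.b.repr r i * S.b.repr s j) • π ^ ((i : ℕ) + (j : ℕ))) ≤ S.h r * S.h s := by
    intro i j
    rw [S.h_smul]
    have h2 := S.h_pow ((i : ℕ) + j) (by have := i.2; have := j.2; omega)
    rw [S.w_add] at h2
    have h3 := S.h_coord r i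
    have h4 := S.h_coord s j
    push_cast
    rw [abs_mul]
    calc |(S.b.repr r i : ℝ)| * |(S.b.repr s j : ℝ)| * S.h (π ^ ((i : ℕ) + (j : ℕ))) ≤
          |(S.b.repr r i : ℝ)| * |(S.b.repr s j : ℝ)| * (w d N i * w d N j) :=
          mul_le_mul_of_nonneg_left h2 (by positivity)
      _ = (|(S.b.repr r i : ℝ)| * w d N i) * (|(S.b.repr s j : ℝ)| * w d N j) := by ring
      _ ≤ S.h r * S.h s := mul_le_mul h3 h4 (by have := S.w_pos j; positivity) (norm_nonneg _)
  have h2 : ∀ i : Fin d, S.h (∑ j, (S.b.repr r i * S.b.repr s j) • π ^ ((i : ℕ) + (j : ℕ))) ≤ d * (S.h r * S.h s) := by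
    intro i
    refine (S.h_sum _ _).trans ((sum_le_sum fun j _ => h1 i j).trans ?_)
    rw [sum_const, card_univ, Fintype.card_fin, nsmul_eq_mul]
  refine (sum_le_sum fun i _ => h2 i).trans ?_
  rw [sum_const, card_univ, Fintype.card_fin, nsmul_eq_mul]
  apply le_of_eq
  ring

omit S in
/-- the ball as a finite set -/
noncomputable def ball (d N : ℕ) (X : ℝ) : Finset (Fin d → ℤ) :=
  Fintype.piFinset (fun i : Fin d => Icc (-⌊X / w d N i⌋) ⌊X / w d N i⌋)

lemma mem_ball {X : ℝ} (hX : 0 ≤ X) (r : R) : S.h r ≤ X ↔ S.b.equivFun r ∈ ball d N X := by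
  rw [S.h_le hX]
  unfold ball
  rw [Fintype.mem_piFinset]
  apply forall_congr'
  intro i
  have hw := S.w_pos i
  rw [mem_Icc, Basis.equivFun_apply, ← abs_le, Int.le_floor, le_div_iff₀ (by linarith)]
  push_cast
  rfl

lemma set_eq_image {X : ℝ} (hX : 0 ≤ X) : {r | S.h r ≤ X} = ((ball d N X).map S.b.equivFun.symm.toEquiv.toEmbedding : Finset R) := by
  ext r
  rw [coe_map, Set.mem_image, Set.mem_setOf_eq, S.mem_ball hX]
  constructor
  · intro h
    exact ⟨S.b.equivFun r, h, S.b.equivFun.symm_apply_apply r⟩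
  · rintro ⟨u, hu, rfl⟩
    have : S.b.equivFun (S.b.equivFun.symm u) = u := S.b.equivFun.apply_symm_apply u
    show S.b.equivFun (S.b.equivFun.symm u) ∈ ball d N X
    rw [this]
    exact hu

lemma finite (X : ℝ) : {r | S.h r ≤ X}.Finite := by
  rcases lt_or_ge X 0 with h | h
  · have : {r | S.h r ≤ X} = ∅ := by
      ext r
      simp only [Set.mem_setOf_eq, Set.mem_empty_iff_false, iff_false, not_le]
      exact lt_of_lt_of_le h (norm_nonneg _)
    rw [this]
    exact Set.finite_empty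
  · rw [S.set_eq_image h]
    exact Finset.finite_toSet _

lemma card_ball {X : ℝ} (hX : 0 ≤ X) : (S.finite X).toFinset.card = ∏ i : Fin d, (2 * ⌊X / w d N i⌋ + 1).toNat := by
  have h1 : (S.finite X).toFinset = (ball d N X).map S.b.equivFun.symm.toEquiv.toEmbedding := by
    ext r
    rw [Set.Finite.mem_toFinset, S.set_eq_image hX, mem_coe]
  rw [h1, card_map]
  unfold ball
  rw [Fintype.card_piFinset]
  apply prod_congr rfl
  intro i _
  rw [Int.card_Icc]
  congr 1
  ring

lemma factor (X : ℝ) (hX : 0 ≤ X) (i : Fin d) : X / w d N i ≤ ((2 * ⌊X / w d N i⌋ + 1).toNat : ℝ) ∧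
    (1 ≤ X → ((2 * ⌊X / w d N i⌋ + 1).toNat : ℝ) ≤ 3 * X) := by
  have hw := S.w_pos i
  set y := X / w d N i with hy
  have hy0 : 0 ≤ y := by positivity
  have hfl : 0 ≤ ⌊y⌋ := Int.floor_nonneg.2 hy0
  have e : ((2 * ⌊y⌋ + 1).toNat : ℝ) = 2 * (⌊y⌋ : ℝ) + 1 := by
    have : (((2 * ⌊y⌋ + 1).toNat : ℕ) : ℤ) = 2 * ⌊y⌋ + 1 := Int.toNat_of_nonneg (by omega)
    have h2 : ((((2 * ⌊y⌋ + 1).toNat : ℕ) : ℤ) : ℝ) = ((2 * ⌊y⌋ + 1 : ℤ) : ℝ) := by rw [this]
    push_cast at h2
    exact h2
  rw [e]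
  have h1 := Int.lt_floor_add_one y
  have h2 := Int.floor_le y
  have h3 : (0 : ℝ) ≤ ⌊y⌋ := by exact_mod_cast hfl
  constructor
  · linarith
  · intro h1X
    have h4 : y ≤ X := by
      rw [hy, div_le_iff₀ (by linarith)]
      nlinarith
    linarith

/-- the norm data -/
noncomputable def dat : Dat R where
  h := S.h
  d := d
  C1 := (d : ℝ) ^ 2
  c1 := (∏ i : Fin d, w d N i)⁻¹
  c2 := 3 ^ d
  X0 := N
  hd := S.hd
  zero := S.h_zero
  pos := S.h_pos
  neg := S.h_neg
  add := S.h_add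
  mul := S.h_mul
  hC1 := one_le_pow₀ (by exact_mod_cast S.hd)
  hc1 := by
    apply inv_pos.2
    apply prod_pos
    intro i _
    linarith [S.w_pos i]
  hc2 := by positivity
  hX0 := by exact_mod_cast (by have := S.hN; omega : 1 ≤ N)
  fin := S.finite
  low := by
    intro X hX
    rw [S.card_ball (by linarith)]
    push_cast
    have e : (∏ i : Fin d, w d N i)⁻¹ * X ^ d = ∏ i : Fin d, X / w d N i := by
      rw [prod_div_distrib, prod_const, card_univ, Fintype.card_fin, inv_mul_eq_div]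
    rw [e]
    apply prod_le_prod
    · intro i _
      have := S.w_pos i
      positivity
    · intro i _
      exact (S.factor X (by linarith) i).1
  up := by
    intro X hX
    rw [S.card_ball (by linarith)]
    push_cast
    rw [← mul_pow]
    calc ∏ i : Fin d, ((2 * ⌊X / w d N i⌋ + 1).toNat : ℝ) ≤ ∏ _i : Fin d, (3 * X) := by
          apply prod_le_prod
          · intro i _; positivity
          · intro i _
            exact (S.factor X (by linarith) i).2 hX
      _ = _ := by rw [prod_const, card_univ, Fintype.card_fin]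
  gen := by
    rw [eq_top_iff]
    intro r _
    have h1 : AddSubgroup.closure (Set.range S.b) ≤ AddSubgroup.closure {r | S.h r ≤ (N : ℝ)} := by
      apply AddSubgroup.closure_mono
      rintro _ ⟨i, rfl⟩
      rw [Set.mem_setOf_eq, S.hb, S.h_basis]
      exact S.w_le i
    apply h1
    rw [← Submodule.span_int_eq_addSubgroupClosure, S.b.span_eq]
    trivial

/-- multiplication by `π` in coordinates: the coordinate at `1` of a multiple of `π` is divisible by `N` -/
lemma coord_zero (s : R) : (N : ℤ) ∣ S.b.repr (π * s) ⟨0, S.hd⟩ := by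
  have e : π * s = ∑ i : Fin d, S.b.repr s i • π ^ ((i : ℕ) + 1) := by
    conv_lhs => rw [← S.b.sum_repr s]
    rw [mul_sum]
    apply sum_congr rfl
    intro i _
    rw [S.hb, mul_smul_comm, ← pow_succ']
  rw [e, map_sum, Finsupp.finset_sum_apply]
  apply dvd_sum
  intro i _
  rw [map_smul, Finsupp.smul_apply, smul_eq_mul]
  apply Dvd.dvd.mul_left
  by_cases hi : (i : ℕ) + 1 < d
  · have h1 : π ^ ((i : ℕ) + 1) = S.b ⟨(i : ℕ) + 1, hi⟩ := by rw [S.hb]
    rw [h1, Basis.repr_self, Finsupp.single_apply, if_neg]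
    · exact dvd_zero _
    · intro h
      have := congrArg Fin.val h
      simp at this
  · have h2 : (i : ℕ) + 1 = d := by have := i.2; omega
    have h1 : π ^ ((i : ℕ) + 1) = (ε * N : ℤ) • S.b ⟨0, S.hd⟩ := by
      rw [h2, S.hπ, S.hb, pow_zero, zsmul_eq_mul, mul_one]
    rw [h1, map_smul, Finsupp.smul_apply, Basis.repr_self, Finsupp.single_apply, if_pos rfl, smul_eq_mul, mul_one]
    exact Dvd.intro_left ε rfl

lemma one_eq : (1 : R) = S.b ⟨0, S.hd⟩ := by rw [S.hb, pow_zero]

lemma N_dvd : π ∣ ((N : ℤ) : R) := by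
  have h1 : π ∣ π ^ d := dvd_pow_self π (by have := S.hd; omega)
  rw [S.hπ] at h1
  push_cast at h1 ⊢
  rcases S.hε with h | h
  · rw [h] at h1; simpa using h1
  · rw [h] at h1; simpa using h1

lemma dig [IsDomain R] : Dig π N where
  hN := S.hN
  hπ := by
    rintro rfl
    have h1 := S.hπ
    rw [zero_pow (by have := S.hd; omega)] at h1
    have h2 : ((ε * N : ℤ)) • S.b ⟨0, S.hd⟩ = 0 := by
      rw [← S.one_eq, zsmul_eq_mul, mul_one, ← h1]
    have h3 := congrArg (fun r => S.b.repr r ⟨0, S.hd⟩) h2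
    simp only [map_smul, Finsupp.smul_apply, Basis.repr_self, Finsupp.single_apply, if_true, smul_eq_mul, mul_one,
      map_zero, Finsupp.coe_zero, Pi.zero_apply] at h3
    have hN := S.hN
    rcases S.hε with h | h <;> rw [h] at h3 <;> omega
  dig := by
    intro r
    set u0 := S.b.repr r ⟨0, S.hd⟩ with hu0
    have hN := S.hN
    have hNz : (0 : ℤ) < N := by exact_mod_cast (by omega : 0 < N)
    refine ⟨(u0 % N).toNat, ?_, ?_⟩
    · have h1 := Int.emod_lt_of_pos u0 hNz
      have h2 := Int.emod_nonneg u0 hNz.ne'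
      omega
    · have h2 := Int.emod_nonneg u0 hNz.ne'
      have h3 : (((u0 % N).toNat : ℕ) : R) = ((u0 % N : ℤ) : R) := by
        have : (((u0 % N).toNat : ℕ) : ℤ) = u0 % N := Int.toNat_of_nonneg h2
        rw [← this]
        push_cast
        rfl
      rw [h3]
      have h4 : π ∣ r - (u0 : R) := by
        have e : r - (u0 : R) = ∑ i ∈ univ.erase (⟨0, S.hd⟩ : Fin d), S.b.repr r i • π ^ (i : ℕ) := by
          have e1 : r = ∑ i : Fin d, S.b.repr r i • π ^ (i : ℕ) := by
            conv_lhs => rw [← S.b.sum_repr r]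
            exact sum_congr rfl fun i _ => by rw [S.hb]
          conv_lhs => rw [e1]
          rw [← add_sum_erase _ _ (mem_univ (⟨0, S.hd⟩ : Fin d))]
          simp only [pow_zero, zsmul_eq_mul, mul_one]
          rw [← hu0]
          ring
        rw [e]
        apply dvd_sum
        intro i hi
        rw [mem_erase] at hi
        have hi0 : (i : ℕ) ≠ 0 := by
          intro h
          apply hi.1
          exact Fin.ext h
        rw [zsmul_eq_mul]
        exact Dvd.dvd.mul_left (dvd_pow_self π hi0) _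
      have h5 : π ∣ (u0 : R) - ((u0 % N : ℤ) : R) := by
        have e : (u0 : R) - ((u0 % N : ℤ) : R) = ((N : ℤ) : R) * ((u0 / N : ℤ) : R) := by
          have := Int.emod_add_mul_ediv u0 N
          have h6 : u0 - u0 % N = N * (u0 / N) := by linarith
          rw [← Int.cast_sub, h6, Int.cast_mul]
        rw [e]
        exact Dvd.dvd.mul_right S.N_dvd _
      have h6 := dvd_add h4 h5
      have e : r - (u0 : R) + ((u0 : R) - ((u0 % N : ℤ) : R)) = r - ((u0 % N : ℤ) : R) := by ring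
      rwa [e] at h6
  dvd := by
    rintro a ⟨s, hs⟩
    have h1 := S.coord_zero s
    rw [← hs] at h1
    have h2 : (a : R) = a • S.b ⟨0, S.hd⟩ := by rw [← S.one_eq, zsmul_eq_mul, mul_one]
    rw [h2, map_smul, Finsupp.smul_apply, Basis.repr_self, Finsupp.single_apply, if_pos rfl, smul_eq_mul, mul_one] at h1
    exact h1

end Bas

end Pool.Agent.K9h54.PA
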