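import Mathlib
import Pool.Agent.K9h54.PA.P1

set_option autoImplicit false

/-! The two cases. -/

namespace Pool.Agent.K9h54.PA

open Finset Module

variable {R : Type*} [CommRing R]

/-- perturbation of the size function -/
lemma lam_le_lam {π : R} {N : ℕ} (H : Dig π N) (φ φ' : R → ℝ) (c m : ℝ) (hm : ∀ r, m ≤ φ r) (h : ∀ r, φ r ≤ φ' r + c)
    {n : ℕ} (a : Fin n → Fin N) : lam φ π N n a ≤ lam φ' π N n a + c := by
  have hne : {s : ℝ | ∃ b : ℕ → ℕ, (∀ i, b i < N) ∧ (∀ i : Fin n, b i = a i) ∧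
      ∃ f g : R, Outputs π b f g ∧ s = max (φ' f) (φ' g)}.Nonempty := by
    have hN := H.hN
    set b : ℕ → ℕ := fun i => if hi : i < n then (a ⟨i, hi⟩ : ℕ) else 0 with hb
    have hb1 : ∀ i, b i < N := by
      intro i
      rw [hb]
      simp only
      split_ifs with hi
      · exact (a ⟨i, hi⟩).2
      · omega
    -- the fraction `val / 1`
    refine ⟨_, b, hb1, ?_, ∑ i ∈ range n, ((b i : ℕ) : R) * π ^ i, 1, ⟨isCoprime_one_left, ?_⟩, rfl⟩
    · intro i
      rw [hb]
      simp only [i.2, dif_pos]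
    · intro k
      rw [one_mul]
      rcases le_total k n with hk | hk
      · have e : ∑ i ∈ range n, ((b i : ℕ) : R) * π ^ i = ∑ i ∈ range k, ((b i : ℕ) : R) * π ^ i +
            ∑ i ∈ Ico k n, ((b i : ℕ) : R) * π ^ i := (sum_range_add_sum_Ico _ hk).symm
        rw [e, sub_add_cancel_left, dvd_neg]
        apply dvd_sum
        intro i hi
        rw [mem_Ico] at hi
        exact Dvd.dvd.mul_left (pow_dvd_pow π hi.1) _
      · have e : ∑ i ∈ range k, ((b i : ℕ) : R) * π ^ i = ∑ i ∈ range n, ((b i : ℕ) : R) * π ^ i := by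
          symm
          apply sum_subset (range_subset_range.2 hk)
          intro i _ hi
          rw [mem_range, not_lt] at hi
          have : b i = 0 := by
            rw [hb]
            simp only
            rw [dif_neg (by omega)]
          rw [this]
          simp
        rw [e, sub_self]
        exact dvd_zero _
  rw [← sub_le_iff_le_add]
  unfold lam
  apply le_csInf hne
  rintro s ⟨b, hb, hba, f, g, hout, rfl⟩
  rw [sub_le_iff_le_add]
  have h1 : sInf {s : ℝ | ∃ b : ℕ → ℕ, (∀ i, b i < N) ∧ (∀ i : Fin n, b i = a i) ∧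
      ∃ f g : R, Outputs π b f g ∧ s = max (φ f) (φ g)} ≤ max (φ f) (φ g) := by
    apply csInf_le
    · refine ⟨m, ?_⟩
      rintro s ⟨b, _, _, f, g, _, rfl⟩
      exact (hm f).trans (le_max_left _ _)
    · exact ⟨b, hb, hba, f, g, hout, rfl⟩
  refine h1.trans (max_le ?_ ?_)
  · exact (h f).trans (by linarith [le_max_left (φ' f) (φ' g)])
  · exact (h g).trans (by linarith [le_max_right (φ' f) (φ' g)])

/-- The average of the complexities of the sequences of length `n`. -/
noncomputable def avg (φ : R → ℝ) (π : R) (N n : ℕ) : ℝ :=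
  (∑ a : Fin n → Fin N, lam φ π N n a) / (N : ℝ) ^ n

lemma avg_le_avg {π : R} {N : ℕ} (H : Dig π N) (φ φ' : R → ℝ) (c m : ℝ) (hm : ∀ r, m ≤ φ r) (h : ∀ r, φ r ≤ φ' r + c)
    (n : ℕ) : avg φ π N n ≤ avg φ' π N n + c := by
  have hN := H.hN
  have hN0 : (0 : ℝ) < N := by exact_mod_cast (by omega : 0 < N)
  have hNn : (0 : ℝ) < (N : ℝ) ^ n := by positivity
  unfold avg
  rw [div_le_iff₀ hNn, add_mul, div_mul_cancel₀ _ hNn.ne']
  refine (sum_le_sum fun a _ => lam_le_lam H φ φ' c m hm h a).trans ?_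
  rw [sum_add_distrib, sum_const, nsmul_eq_mul, card_univ, Fintype.card_fun, Fintype.card_fin, Fintype.card_fin]
  push_cast
  linarith

namespace Bas

variable {d N : ℕ} {π : R} {ε : ℤ} (S : Bas R d N π ε)

/-- the standard size -/
noncomputable def phi (r : R) : ℝ := d * (Real.log (S.h r) / Real.log N)

lemma phi_zero : S.phi 0 = 0 := by
  unfold phi
  rw [S.h_zero, Real.log_zero]
  simp

lemma phi_nonneg (r : R) : 0 ≤ S.phi r := by
  by_cases hr : r = 0
  · rw [hr, phi_zero]
  · unfold phi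
    have h1 := Real.log_nonneg (S.h_pos r hr)
    have h2 : 0 ≤ Real.log N := Real.log_natCast_nonneg N
    positivity

/-- the theorem for a size function near the standard one -/
theorem near [IsDomain R] (φ : R → ℝ) (c : ℝ) (h1 : ∀ r, S.phi r ≤ φ r) (h2 : ∀ r, φ r ≤ S.phi r + c) (n : ℕ) :
    |avg φ π N n - n / 2| ≤ S.dat.CC N + c := by
  have h3 := S.dat.main S.dig S.phi S.phi_zero.le (fun r _ => rfl) n
  have h4 := avg_le_avg S.dig φ S.phi c 0 (fun r => (S.phi_nonneg r).trans (h1 r)) h2 n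
  have h5 := avg_le_avg S.dig S.phi φ 0 0 S.phi_nonneg (fun r => by simpa using h1 r) n
  have h6 : |avg S.phi π N n - n / 2| ≤ S.dat.CC N := h3
  have hc : 0 ≤ c := by
    have := h1 0
    have := h2 0
    linarith
  rw [abs_le] at h6 ⊢
  constructor <;> linarith

/-- the constant depends only on `d` and `N` -/
noncomputable def const (d N : ℕ) : ℝ :=
  let CI : ℝ := 3 ^ d / (∏ i : Fin d, w d N i)⁻¹ * (2 * (d : ℝ) ^ 2) ^ d
  let CP : ℝ := 3 ^ d / (∏ i : Fin d, w d N i)⁻¹ * 4 ^ d * CI + 3 ^ d * 3 ^ d * CI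
  let CS : ℝ := 3 ^ d * (CP + CI)
  d + d / Real.log N * (Real.log (6 * N) + (1 + CS * 4 ^ d * (N : ℝ) ^ (2 * d)) / ((∏ i : Fin d, w d N i)⁻¹) ^ 2) +
    d / Real.log N * (2 * (3 ^ d) ^ 2)

lemma CC_eq : S.dat.CC N = const d N := rfl

end Bas

/-- Size in the first case: `φ(u + v π) = log_N (u² + N v²)`. -/
noncomputable def size1 (N : ℕ) (b : Basis (Fin 2) ℤ R) (r : R) : ℝ :=
  Real.logb N ((b.repr r 0 : ℝ) ^ 2 + N * (b.repr r 1 : ℝ) ^ 2)

/-- Size in the second case: the maximum of the numbers `d log_N |u_i| + i` over the `i` with `u_i ≠ 0`, where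
`r = ∑ u_i π ^ i` (and `0` for `r = 0`). -/
noncomputable def size2 (d N : ℕ) (b : Basis (Fin d) ℤ R) (r : R) : ℝ :=
  sSup {s : ℝ | ∃ i : Fin d, b.repr r i ≠ 0 ∧ s = d * Real.logb N |(b.repr r i : ℝ)| + i}

lemma size2_eq {d N : ℕ} {π : R} {ε : ℤ} (S : Bas R d N π ε) (r : R) : size2 d N S.b r = S.phi r := by
  have hN := S.hN
  have hN0 : (0 : ℝ) < N := by exact_mod_cast (by omega : 0 < N)
  have hL : 0 < Real.log N := Real.log_pos (by exact_mod_cast (by omega : 1 < N))
  have hd : (0 : ℝ) < d := by exact_mod_cast S.hd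
  by_cases hr : r = 0
  · rw [hr, S.phi_zero]
    unfold size2
    have : {s : ℝ | ∃ i : Fin d, S.b.repr 0 i ≠ 0 ∧ s = d * Real.logb N |(S.b.repr 0 i : ℝ)| + i} = ∅ := by
      ext s
      simp
    rw [this, Real.sSup_empty]
  · have hh := S.h_pos r hr
    have hval : ∀ i : Fin d, S.b.repr r i ≠ 0 → (d : ℝ) * Real.logb N |(S.b.repr r i : ℝ)| + i =
        d * (Real.log (|(S.b.repr r i : ℝ)| * Bas.w d N i) / Real.log N) := by
      intro i hi
      have h1 : 0 < |(S.b.repr r i : ℝ)| := abs_pos.2 (by exact_mod_cast hi)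
      have h2 := S.w_pos i
      rw [Real.log_mul h1.ne' (by linarith), Real.logb]
      have h3 : Real.log (Bas.w d N i) = ((i : ℕ) : ℝ) / d * Real.log N := by
        unfold Bas.w
        rw [Real.log_rpow hN0]
      rw [h3]
      field_simp
    have hle : ∀ s ∈ {s : ℝ | ∃ i : Fin d, S.b.repr r i ≠ 0 ∧ s = d * Real.logb N |(S.b.repr r i : ℝ)| + i}, s ≤ S.phi r := by
      rintro s ⟨i, hi, rfl⟩
      rw [hval i hi]
      unfold Bas.phi
      apply mul_le_mul_of_nonneg_left _ hd.le
      apply div_le_div_of_nonneg_right _ hL.le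
      apply Real.log_le_log
      · have h1 : 0 < |(S.b.repr r i : ℝ)| := abs_pos.2 (by exact_mod_cast hi)
        have h2 := S.w_pos i
        positivity
      · exact S.h_coord r i
    have hne : {s : ℝ | ∃ i : Fin d, S.b.repr r i ≠ 0 ∧ s = d * Real.logb N |(S.b.repr r i : ℝ)| + i}.Nonempty := by
      have h1 : S.b.repr r ≠ 0 := by
        intro h
        apply hr
        exact (S.b.repr.map_eq_zero_iff).1 h
      obtain ⟨i, hi⟩ := Finsupp.ne_iff.1 h1
      exact ⟨_, i, hi, rfl⟩
    unfold size2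
    apply le_antisymm
    · exact csSup_le hne hle
    · set σ := sSup {s : ℝ | ∃ i : Fin d, S.b.repr r i ≠ 0 ∧ s = d * Real.logb N |(S.b.repr r i : ℝ)| + i} with hσ
      have hbdd : BddAbove {s : ℝ | ∃ i : Fin d, S.b.repr r i ≠ 0 ∧ s = d * Real.logb N |(S.b.repr r i : ℝ)| + i} := ⟨_, hle⟩
      have h1 : S.h r ≤ Real.exp (σ * Real.log N / d) := by
        rw [S.h_le (Real.exp_nonneg _)]
        intro i
        by_cases hi : S.b.repr r i = 0
        · rw [hi]
          simp only [Int.cast_zero, abs_zero, zero_mul]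
          exact Real.exp_nonneg _
        · have h2 : (d : ℝ) * Real.logb N |(S.b.repr r i : ℝ)| + i ≤ σ := le_csSup hbdd ⟨i, hi, rfl⟩
          rw [hval i hi] at h2
          have h3 : 0 < |(S.b.repr r i : ℝ)| := abs_pos.2 (by exact_mod_cast hi)
          have h4 := S.w_pos i
          have h5 : 0 < |(S.b.repr r i : ℝ)| * Bas.w d N i := by positivity
          rw [← Real.log_le_iff_le_exp h5, le_div_iff₀ hd]
          rw [mul_div_assoc', div_le_iff₀ hL] at h2
          linarith
      unfold Bas.phi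
      have h2 : Real.log (S.h r) ≤ σ * Real.log N / d := (Real.log_le_iff_le_exp (by linarith)).2 h1
      rw [le_div_iff₀ hd] at h2
      rw [mul_div_assoc', div_le_iff₀ hL]
      linarith

lemma size1_near {N : ℕ} {π : R} {ε : ℤ} (S : Bas R 2 N π ε) (r : R) :
    S.phi r ≤ size1 N S.b r ∧ size1 N S.b r ≤ S.phi r + 1 := by
  have hN := S.hN
  have hN0 : (0 : ℝ) < N := by exact_mod_cast (by omega : 0 < N)
  have hL : 0 < Real.log N := Real.log_pos (by exact_mod_cast (by omega : 1 < N))
  by_cases hr : r = 0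
  · rw [hr, S.phi_zero]
    unfold size1
    simp
  · have hh := S.h_pos r hr
    set u : ℝ := (S.b.repr r 0 : ℝ) with hu
    set v : ℝ := (S.b.repr r 1 : ℝ) with hv
    have hw0 : Bas.w 2 N ((0 : Fin 2) : ℕ) = 1 := by
      unfold Bas.w
      simp
    have hw1 : Bas.w 2 N ((1 : Fin 2) : ℕ) = √(N : ℝ) := by
      unfold Bas.w
      rw [Real.sqrt_eq_rpow]
      norm_num
    have hsq : √(N : ℝ) ^ 2 = N := Real.sq_sqrt hN0.le
    have h1 : S.h r ^ 2 ≤ u ^ 2 + N * v ^ 2 := by
      have h2 : S.h r ≤ √(u ^ 2 + N * v ^ 2) := by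
        rw [S.h_le (Real.sqrt_nonneg _), Fin.forall_fin_two]
        constructor
        · rw [hw0, mul_one]
          apply Real.le_sqrt_of_sq_le
          rw [sq_abs]
          have : 0 ≤ N * v ^ 2 := by positivity
          linarith
        · rw [hw1]
          apply Real.le_sqrt_of_sq_le
          rw [mul_pow, sq_abs, hsq]
          have : 0 ≤ u ^ 2 := by positivity
          linarith
      have h3 := pow_le_pow_left₀ (by linarith) h2 2
      rwa [Real.sq_sqrt (by positivity)] at h3
    have h2 : u ^ 2 + N * v ^ 2 ≤ 2 * S.h r ^ 2 := by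
      have h3 := S.h_coord r 0
      have h4 := S.h_coord r 1
      rw [hw0, mul_one] at h3
      rw [hw1] at h4
      have h5 := pow_le_pow_left₀ (abs_nonneg _) h3 2
      have h6 := pow_le_pow_left₀ (by positivity) h4 2
      rw [sq_abs] at h5
      rw [mul_pow, sq_abs, hsq] at h6
      linarith
    have hpos : 0 < u ^ 2 + N * v ^ 2 := by nlinarith
    have e1 : S.phi r = Real.log (S.h r ^ 2) / Real.log N := by
      unfold Bas.phi
      rw [Real.log_pow]
      push_cast
      ring
    have e2 : size1 N S.b r = Real.log (u ^ 2 + N * v ^ 2) / Real.log N := rfl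
    rw [e1, e2]
    constructor
    · apply div_le_div_of_nonneg_right _ hL.le
      exact Real.log_le_log (by positivity) h1
    · rw [← sub_le_iff_le_add', ← sub_div, div_le_one hL]
      have h3 := Real.log_le_log hpos h2
      rw [Real.log_mul (by norm_num) (by positivity)] at h3
      have h4 : Real.log 2 ≤ Real.log N := Real.log_le_log (by norm_num) (by exact_mod_cast hN)
      linarith

end Pool.Agent.K9h54.PA
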