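import Mathlib
import Pool.Agent.K9h54.PA.P2

set_option autoImplicit false

/-! The integers. -/

namespace Pool.Agent.K9h54.PA

open Finset

lemma int_set (X : ℝ) (hX : 0 ≤ X) : {r : ℤ | |(r : ℝ)| ≤ X} = (Icc (-⌊X⌋) ⌊X⌋ : Finset ℤ) := by
  ext r
  rw [coe_Icc, Set.mem_setOf_eq, Set.mem_Icc, ← abs_le, Int.le_floor]
  push_cast
  rfl

lemma int_fin (X : ℝ) : {r : ℤ | |(r : ℝ)| ≤ X}.Finite := by
  rcases lt_or_ge X 0 with h | h
  · have : {r : ℤ | |(r : ℝ)| ≤ X} = ∅ := by
      ext r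
      simp only [Set.mem_setOf_eq, Set.mem_empty_iff_false, iff_false, not_le]
      exact lt_of_lt_of_le h (abs_nonneg _)
    rw [this]
    exact Set.finite_empty
  · rw [int_set X h]
    exact Finset.finite_toSet _

lemma int_card (X : ℝ) (hX : 0 ≤ X) : ((int_fin X).toFinset.card : ℝ) = 2 * (⌊X⌋ : ℝ) + 1 := by
  have h1 : (int_fin X).toFinset = Icc (-⌊X⌋) ⌊X⌋ := by
    ext r
    rw [Set.Finite.mem_toFinset, int_set X hX, mem_coe]
  rw [h1, Int.card_Icc]
  have hfl : 0 ≤ ⌊X⌋ := Int.floor_nonneg.2 hX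
  have : (((⌊X⌋ + 1 - -⌊X⌋).toNat : ℕ) : ℤ) = 2 * ⌊X⌋ + 1 := by
    rw [Int.toNat_of_nonneg (by omega)]
    ring
  have h2 : ((((⌊X⌋ + 1 - -⌊X⌋).toNat : ℕ) : ℤ) : ℝ) = ((2 * ⌊X⌋ + 1 : ℤ) : ℝ) := by rw [this]
  push_cast at h2
  exact h2

/-- the norm data of the integers -/
noncomputable def datZ : Dat ℤ where
  h := fun r => |(r : ℝ)|
  d := 1
  C1 := 1
  c1 := 1
  c2 := 3
  X0 := 1
  hd := le_rfl
  zero := by simp
  pos := by
    intro r hr
    have : 1 ≤ |r| := Int.one_le_abs hr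
    exact_mod_cast this
  neg := by intro r; push_cast; rw [abs_neg]
  add := by intro a b; push_cast; exact abs_add_le _ _
  mul := by intro a b; push_cast; rw [abs_mul, one_mul]
  hC1 := le_rfl
  hc1 := one_pos
  hc2 := by norm_num
  hX0 := le_rfl
  fin := int_fin
  low := by
    intro X hX
    rw [int_card X (by linarith), one_mul, pow_one]
    have h1 := Int.lt_floor_add_one X
    have h2 : (0 : ℝ) ≤ ⌊X⌋ := by exact_mod_cast Int.floor_nonneg.2 (by linarith : 0 ≤ X)
    linarith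
  up := by
    intro X hX
    rw [int_card X (by linarith), pow_one]
    have h1 := Int.floor_le X
    linarith
  gen := by
    rw [eq_top_iff]
    intro r _
    have h1 : (1 : ℤ) ∈ AddSubgroup.closure {r : ℤ | |(r : ℝ)| ≤ 1} := AddSubgroup.subset_closure (by simp)
    have h2 := AddSubgroup.zsmul_mem _ h1 r
    simpa using h2

lemma digZ (N : ℕ) (hN : 2 ≤ N) : Dig (N : ℤ) N where
  hN := hN
  hπ := by omega
  dig := by
    intro r
    have hNz : (0 : ℤ) < N := by omega
    refine ⟨(r % N).toNat, ?_, ?_⟩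
    · have h1 := Int.emod_lt_of_pos r hNz
      have h2 := Int.emod_nonneg r hNz.ne'
      omega
    · have h2 := Int.emod_nonneg r hNz.ne'
      rw [Int.natCast_toNat_eq_self.2 h2]
      exact Int.dvd_self_sub_emod
  dvd := by
    intro a h
    simpa using h

/-- the absolute constant -/
noncomputable def cz : ℝ := 1 + (Real.log 6 + 1585) / Real.log 2 + 18 / Real.log 2

lemma CC_le (N : ℕ) (hN : 2 ≤ N) : datZ.CC N ≤ cz := by
  have hl2 : 0 < Real.log 2 := Real.log_pos (by norm_num)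
  have hlN : Real.log 2 ≤ Real.log N := Real.log_le_log (by norm_num) (by exact_mod_cast hN)
  have hl6 : 0 ≤ Real.log 6 := Real.log_nonneg (by norm_num)
  have e : datZ.CC N = 1 + (Real.log 6 + 1585) / Real.log N + 18 / Real.log N := by
    unfold Dat.CC Dat.CS Dat.CP Dat.CI
    simp only [datZ]
    norm_num
    ring
  rw [e]
  unfold cz
  have h1 : (Real.log 6 + 1585) / Real.log N ≤ (Real.log 6 + 1585) / Real.log 2 :=
    div_le_div_of_nonneg_left (by linarith) hl2 hlN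
  have h2 : 18 / Real.log N ≤ 18 / Real.log 2 := div_le_div_of_nonneg_left (by norm_num) hl2 hlN
  linarith

/-- the size -/
noncomputable def sizeZ (N : ℕ) (r : ℤ) : ℝ := Real.logb N |(r : ℝ)|

lemma mainZ (N : ℕ) (hN : 2 ≤ N) (n : ℕ) : |avg (sizeZ N) (N : ℤ) N n - n / 2| ≤ cz := by
  have h1 := datZ.main (digZ N hN) (sizeZ N) (by unfold sizeZ; simp) (fun r _ => by
    show Real.logb N |(r : ℝ)| = ((1 : ℕ) : ℝ) * (Real.log |(r : ℝ)| / Real.log N)
    rw [Nat.cast_one, one_mul]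
    rfl) n
  exact h1.trans (CC_le N hN)

end Pool.Agent.K9h54.PA
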