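import Mathlib

set_option autoImplicit false

/-! Avoiding one residue class modulo each of finitely many primes. -/

namespace Pool.Agent.K9h54.PA

open Finset

/-- the bound -/
def JJ (r : ℕ) : ℕ := 4 ^ (2 * r) * (2 * r + 1)

lemma avoid (P : Finset ℕ) (hP : ∀ p ∈ P, p.Prime) (c : ℕ → ℕ) :
    ∃ k < JJ P.card, ∀ p ∈ P, ¬ k ≡ c p [MOD p] := by
  classical
  set r := P.card with hr
  set S := P.filter (fun p => p ≤ 2 * r) with hS
  have hSP : ∀ p ∈ S, p.Prime := fun p hp => hP p (mem_filter.1 hp).1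
  have hcop : Set.Pairwise (↑S : Set ℕ) (Function.onFun Nat.Coprime (fun p => p)) := by
    intro p hp q hq hpq
    exact (Nat.coprime_primes (hSP p hp) (hSP q hq)).2 hpq
  have hne : ∀ p ∈ S, (fun p : ℕ => p) p ≠ 0 := fun p hp => (hSP p hp).ne_zero
  set k0 := (Nat.chineseRemainderOfFinset (fun p => c p + 1) (fun p => p) S hne hcop).1 with hk0
  have hk0m : ∀ p ∈ S, k0 ≡ c p + 1 [MOD p] := (Nat.chineseRemainderOfFinset (fun p => c p + 1) (fun p => p) S hne hcop).2
  have hk0lt : k0 < ∏ p ∈ S, p := Nat.chineseRemainderOfFinset_lt_prod (fun p => c p + 1) (fun p => p) hne hcop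
  set m0 := ∏ p ∈ S, p with hm0
  have hm0le : m0 ≤ 4 ^ (2 * r) := by
    refine le_trans ?_ (primorial_le_four_pow (2 * r))
    unfold primorial
    apply prod_le_prod_of_subset_of_one_le'
    · intro p hp
      rw [mem_filter, mem_range]
      refine ⟨?_, hSP p hp⟩
      have := (mem_filter.1 hp).2
      omega
    · intro p hp _
      rw [mem_filter] at hp
      exact hp.2.one_lt.le
  -- the bad values of j for the large primes
  set Bad : Finset ℕ := (P.filter (fun p => ¬ p ≤ 2 * r)).biUnion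
    (fun p => (range (2 * r + 1)).filter (fun j => k0 + m0 * j ≡ c p [MOD p])) with hBad
  have hBadc : Bad.card ≤ r := by
    refine card_biUnion_le.trans ?_
    have h1 : ∀ p ∈ P.filter (fun p => ¬ p ≤ 2 * r),
        ((range (2 * r + 1)).filter (fun j => k0 + m0 * j ≡ c p [MOD p])).card ≤ 1 := by
      intro p hp
      rw [mem_filter] at hp
      have hpp := hP p hp.1
      rw [card_le_one]
      intro i hi j hj
      rw [mem_filter, mem_range] at hi hj
      have h2 : k0 + m0 * i ≡ k0 + m0 * j [MOD p] := hi.2.trans hj.2.symm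
      have h3 : m0 * i ≡ m0 * j [MOD p] := Nat.ModEq.add_left_cancel' k0 h2
      have hcp : Nat.Coprime p m0 := by
        rw [hm0]
        apply Nat.Coprime.prod_right
        intro q hq
        rw [Nat.coprime_primes hpp (hSP q hq)]
        rintro rfl
        exact hp.2 (mem_filter.1 hq).2
      have h4 : i ≡ j [MOD p] := Nat.ModEq.cancel_left_of_coprime hcp h3
      have h5 : ¬ p ≤ 2 * r := hp.2
      exact Nat.ModEq.eq_of_lt_of_lt h4 (by omega) (by omega)
    refine (sum_le_sum h1).trans ?_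
    rw [sum_const, smul_eq_mul, mul_one]
    exact card_filter_le _ _
  obtain ⟨j, hj1, hj2⟩ : ∃ j ∈ range (2 * r + 1), j ∉ Bad := by
    by_contra hcon
    push Not at hcon
    have h1 := card_le_card (show range (2 * r + 1) ⊆ Bad from hcon)
    rw [card_range] at h1
    omega
  rw [mem_range] at hj1
  refine ⟨k0 + m0 * j, ?_, ?_⟩
  · unfold JJ
    have h1 : m0 * j ≤ m0 * (2 * r) := Nat.mul_le_mul_left _ (by omega)
    have h2 : m0 * (2 * r + 1) ≤ 4 ^ (2 * r) * (2 * r + 1) := Nat.mul_le_mul_right _ hm0le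
    have h3 : m0 * (2 * r + 1) = m0 * (2 * r) + m0 := by ring
    omega
  · intro p hp
    by_cases hps : p ≤ 2 * r
    · have hpS : p ∈ S := mem_filter.2 ⟨hp, hps⟩
      intro h1
      have h2 := hk0m p hpS
      have h3 : p ∣ m0 * j := Dvd.dvd.mul_right (dvd_prod_of_mem _ hpS) _
      have h4 : k0 + m0 * j ≡ k0 + 0 [MOD p] := Nat.ModEq.add_left _ ((Nat.modEq_zero_iff_dvd).2 h3)
      rw [add_zero] at h4
      have h5 : c p + 1 ≡ c p + 0 [MOD p] := (h2.symm.trans h4.symm).trans h1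
      have h6 : 1 ≡ 0 [MOD p] := Nat.ModEq.add_left_cancel' _ h5
      have h7 := (Nat.modEq_zero_iff_dvd).1 h6
      have := (hP p hp).one_lt
      have := Nat.le_of_dvd one_pos h7
      omega
    · intro h1
      apply hj2
      rw [hBad, mem_biUnion]
      exact ⟨p, mem_filter.2 ⟨hp, hps⟩, mem_filter.2 ⟨mem_range.2 hj1, h1⟩⟩

/-- for integers: `u + k w` is not divisible by any of the primes -/
lemma avoid_lin (P : Finset ℕ) (hP : ∀ p ∈ P, p.Prime) (u w : ℤ) (h : ∀ p ∈ P, ¬ ((p : ℤ) ∣ u ∧ (p : ℤ) ∣ w)) :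
    ∃ k < JJ P.card, ∀ p ∈ P, ¬ (p : ℤ) ∣ u + k * w := by
  have key : ∀ p ∈ P, ∃ c : ℕ, ∀ k : ℕ, ¬ k ≡ c [MOD p] → ¬ (p : ℤ) ∣ u + k * w := by
    intro p hp
    have hpp := hP p hp
    by_cases hw : (p : ℤ) ∣ w
    · refine ⟨0, fun k _ hk => ?_⟩
      have h1 : (p : ℤ) ∣ u := by
        have h2 : (p : ℤ) ∣ (k : ℤ) * w := Dvd.dvd.mul_left hw _
        exact (Int.dvd_add_left h2).1 hk
      exact h p hp ⟨h1, hw⟩
    · -- w is invertible modulo p
      have hpZ : Prime (p : ℤ) := Nat.prime_iff_prime_int.1 hpp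
      have hcop : IsCoprime (p : ℤ) w := (Prime.coprime_iff_not_dvd hpZ).2 hw
      obtain ⟨a, b, hab⟩ := hcop
      -- b w ≡ 1
      set c : ℕ := ((-(b * u)) % p).toNat with hc
      have hcz : ((c : ℕ) : ℤ) = (-(b * u)) % p := by
        rw [hc]
        exact Int.toNat_of_nonneg (Int.emod_nonneg _ (by exact_mod_cast hpp.ne_zero))
      refine ⟨c, fun k hk hdiv => hk ?_⟩
      have h1 : (p : ℤ) ∣ (k : ℤ) - c := by
        have h2 : (p : ℤ) ∣ b * (u + k * w) := Dvd.dvd.mul_left hdiv _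
        have h3 : (p : ℤ) ∣ -(b * u) - c := by
          rw [hcz]
          exact Int.dvd_self_sub_emod
        have h4 : (k : ℤ) - c = b * (u + k * w) + (-(b * u) - c) + (p : ℤ) * (a * k) := by
          linear_combination (-(k : ℤ)) * hab
        rw [h4]
        exact dvd_add (dvd_add h2 h3) (dvd_mul_right _ _)
      have h5 : (k : ℤ) ≡ c [ZMOD p] := ((Int.modEq_iff_dvd).2 (by
        have : (c : ℤ) - k = -((k : ℤ) - c) := by ring
        rw [this]
        exact (dvd_neg).2 h1))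
      exact (Int.natCast_modEq_iff).1 h5
  choose! c hc using key
  obtain ⟨k, hk, hk2⟩ := avoid P hP c
  exact ⟨k, hk, fun p hp => hc p hp k (hk2 p hp)⟩

end Pool.Agent.K9h54.PA
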