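import Mathlib
import Pool.Agent.K9h54.PA.C6
import Pool.Agent.K9h54.PA.Z1
import Pool.Agent.K9h54.PA.Z2

set_option autoImplicit false

/-! The integers: the sharper upper bound. -/

namespace Pool.Agent.K9h54.PA

open Finset
open scoped Pointwise

variable {R : Type*} [CommRing R]

/-- The homomorphism `(f, g) ↦ g x - f mod π ^ n`. -/
noncomputable def psi' (π : R) (n : ℕ) (x : R) : R × R →+ (R ⧸ Ideal.span {π ^ n}) where
  toFun v := Ideal.Quotient.mk _ (v.2 * x - v.1)
  map_zero' := by simp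
  map_add' v w := by
    simp only [Prod.snd_add, Prod.fst_add]
    rw [← map_add]
    congr 1
    ring

lemma psi'_surj (π : R) (n : ℕ) (x : R) : Function.Surjective (psi' π n x) := by
  intro e
  obtain ⟨r, rfl⟩ := Ideal.Quotient.mk_surjective e
  refine ⟨(-r, 0), ?_⟩
  show Ideal.Quotient.mk _ (0 * x - -r) = _
  rw [zero_mul, zero_sub, neg_neg]

lemma psi'_eq {π : R} {n : ℕ} {x : R} {v w : R × R} (h : psi' π n x v = psi' π n x w) :
    π ^ n ∣ (v.2 - w.2) * x - (v.1 - w.1) := by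
  have h1 : (Ideal.Quotient.mk (Ideal.span {π ^ n}) (v.2 * x - v.1)) = Ideal.Quotient.mk (Ideal.span {π ^ n}) (w.2 * x - w.1) := h
  rw [Ideal.Quotient.mk_eq_mk_iff_sub_mem, Ideal.mem_span_singleton] at h1
  have e : (v.2 - w.2) * x - (v.1 - w.1) = v.2 * x - v.1 - (w.2 * x - w.1) := by ring
  rw [e]
  exact h1

namespace Dat

variable (D : Dat R)

open Classical in
lemma pairs_le' (π : R) (n : ℕ) (x : R) (X : ℝ) :
    ((D.box2 X ×ˢ D.box2 X).filter (fun p => psi' π n x p.1 = psi' π n x p.2)).card ≤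
      (D.box2 X).card * ((D.box2 (2 * X)).filter (fun v => π ^ n ∣ v.2 * x - v.1)).card := by
  rw [← card_product]
  apply card_le_card_of_injOn (fun p => (p.1, p.1 - p.2))
  · intro p hp
    rw [mem_coe, mem_filter, mem_product, mem_box2, mem_box2] at hp
    rw [mem_coe, mem_product, mem_filter, mem_box2, mem_box2]
    refine ⟨hp.1.1, ⟨?_, ?_⟩, ?_⟩
    · refine (D.sub _ _).trans ?_
      linarith [hp.1.1.1, hp.1.2.1]
    · refine (D.sub _ _).trans ?_
      linarith [hp.1.1.2, hp.1.2.2]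
    · exact psi'_eq hp.2
  · intro p _ q _ h
    simp only [Prod.mk.injEq] at h
    refine Prod.ext h.1 ?_
    have h1 := h.2
    rw [h.1] at h1
    exact sub_right_injective h1

open Classical in
/-- the average of the reciprocals of the sizes of the images -/
lemma avg_image' [IsDomain R] {π : R} {N : ℕ} (H : Dig π N) (n : ℕ) (X M : ℝ) (hX : D.X0 ≤ X)
    (hX1 : (N : ℝ) ^ n ≤ X ^ (2 * D.d)) (hX2 : X ^ (2 * D.d) ≤ M * (N : ℝ) ^ n) :
    ∑ a : Fin n → Fin N, (N : ℝ) ^ n / ((D.box2 X).image (psi' π n (val π a))).card ≤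
      (1 + D.CS * 4 ^ D.d * M) / D.c1 ^ 2 * N ^ n := by
  have hX0 : 1 ≤ X := D.hX0.trans hX
  have hc1 := D.hc1
  have hCS := D.CS_pos
  have hN2 := H.hN
  have hN0 : (0 : ℝ) < N := by exact_mod_cast (by omega : 0 < N)
  have hNn : (0 : ℝ) < (N : ℝ) ^ n := by positivity
  set b : ℝ := ((D.box2 X).card : ℝ) with hb
  have hb1 : D.c1 ^ 2 * X ^ (2 * D.d) ≤ b := by
    have h1 := D.low' hX0
    have e : b = ((D.box X).card : ℝ) * (D.box X).card := by
      rw [hb]
      unfold box2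
      rw [card_product]
      push_cast
      ring
    rw [e, two_mul, pow_add]
    have h2 : 0 ≤ D.c1 * X ^ D.d := by positivity
    nlinarith
  have hb0 : 0 < b := by
    have : 0 < D.c1 ^ 2 * X ^ (2 * D.d) := by positivity
    linarith
  set Z : (Fin n → Fin N) → ℕ := fun a => ((D.box2 (2 * X)).filter (fun v => π ^ n ∣ v.2 * val π a - v.1)).card with hZ
  have h1 : ∀ a : Fin n → Fin N, (N : ℝ) ^ n / ((D.box2 X).image (psi' π n (val π a))).card ≤ ((N : ℝ) ^ n / b) * Z a := by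
    intro a
    have h2 := card_image_ge (D.box2 X) (psi' π n (val π a))
    have h3 : (((D.box2 X ×ˢ D.box2 X).filter (fun p => psi' π n (val π a) p.1 = psi' π n (val π a) p.2)).card : ℝ) ≤ b * Z a := by
      have h3' := D.pairs_le' π n (val π a) X
      rw [hb, hZ]
      exact_mod_cast h3'
    set I : ℝ := (((D.box2 X).image (psi' π n (val π a))).card : ℝ) with hI
    have hI0 : 0 ≤ I := Nat.cast_nonneg _
    have h4 : b ^ 2 ≤ I * (b * Z a) := by
      refine le_trans ?_ (mul_le_mul_of_nonneg_left h3 hI0)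
      exact h2
    have h5 : b ≤ I * Z a := by
      have : b * b ≤ (I * Z a) * b := by nlinarith
      exact le_of_mul_le_mul_right this hb0
    have hI1 : 0 < I := by
      rcases hI0.eq_or_lt with h | h
      · rw [← h] at h5; simp at h5; linarith
      · exact h
    rw [div_le_iff₀ hI1]
    calc (N : ℝ) ^ n = ((N : ℝ) ^ n / b) * b := by field_simp
      _ ≤ ((N : ℝ) ^ n / b) * (I * Z a) := mul_le_mul_of_nonneg_left h5 (by positivity)
      _ = _ := by ring
  have h2 : ∑ a, (Z a : ℝ) ≤ (N : ℝ) ^ n + D.CS * (2 * X) ^ (2 * D.d) := by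
    have e : ∑ a, (Z a : ℝ) = ∑ v ∈ D.box2 (2 * X), (cnt π N n v.1 v.2 : ℝ) := by
      have h3 : ∀ a : Fin n → Fin N, (Z a : ℝ) = ∑ v ∈ D.box2 (2 * X), (if π ^ n ∣ v.2 * val π a - v.1 then (1 : ℝ) else 0) := by
        intro a
        rw [hZ, ← sum_filter, sum_const, nsmul_eq_mul, mul_one]
      rw [sum_congr rfl fun a _ => h3 a, sum_comm]
      apply sum_congr rfl
      intro v _
      unfold cnt
      rw [← sum_filter, sum_const, nsmul_eq_mul, mul_one]
    rw [e]
    have h3 := D.total H n (2 * X) (by linarith)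
    have h4 : ∑ v ∈ D.box2 (2 * X), (cnt π N n v.1 v.2 : ℝ) =
        ∑ v ∈ (D.box2 (2 * X)).filter (fun v => v = 0), (cnt π N n v.1 v.2 : ℝ) +
        ∑ v ∈ (D.box2 (2 * X)).filter (fun v => ¬ v = 0), (cnt π N n v.1 v.2 : ℝ) :=
      (sum_filter_add_sum_filter_not _ _ _).symm
    rw [h4]
    apply add_le_add
    · have h5 : (D.box2 (2 * X)).filter (fun v => v = 0) ⊆ {0} := by
        intro v hv
        rw [mem_filter] at hv
        rw [mem_singleton]
        exact hv.2
      refine (sum_le_sum_of_subset_of_nonneg h5 (fun _ _ _ => Nat.cast_nonneg _)).trans ?_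
      rw [sum_singleton]
      exact_mod_cast cnt_total n (0 : R) (0 : R)
    · exact h3
  calc ∑ a : Fin n → Fin N, (N : ℝ) ^ n / ((D.box2 X).image (psi' π n (val π a))).card
      ≤ ∑ a, ((N : ℝ) ^ n / b) * Z a := sum_le_sum fun a _ => h1 a
    _ = ((N : ℝ) ^ n / b) * ∑ a, (Z a : ℝ) := by rw [mul_sum]
    _ ≤ ((N : ℝ) ^ n / b) * ((N : ℝ) ^ n + D.CS * (2 * X) ^ (2 * D.d)) := mul_le_mul_of_nonneg_left h2 (by positivity)
    _ ≤ ((N : ℝ) ^ n / b) * ((1 + D.CS * 4 ^ D.d * M) * (N : ℝ) ^ n) := by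
        apply mul_le_mul_of_nonneg_left _ (by positivity)
        have e : (2 * X) ^ (2 * D.d) = 4 ^ D.d * X ^ (2 * D.d) := by
          rw [mul_pow, pow_mul]
          norm_num
        rw [e]
        have h3 : D.CS * (4 ^ D.d * X ^ (2 * D.d)) ≤ D.CS * (4 ^ D.d * (M * (N : ℝ) ^ n)) := by gcongr
        linarith
    _ ≤ ((N : ℝ) ^ n / (D.c1 ^ 2 * (N : ℝ) ^ n)) * ((1 + D.CS * 4 ^ D.d * M) * (N : ℝ) ^ n) := by
        have hM0 : 0 ≤ M := by
          have h3 : 0 < X ^ (2 * D.d) := by positivity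
          by_contra hcon
          push Not at hcon
          have : M * (N : ℝ) ^ n < 0 := mul_neg_of_neg_of_pos hcon hNn
          linarith
        apply mul_le_mul_of_nonneg_right _ (by positivity)
        apply div_le_div_of_nonneg_left (by positivity) (by positivity)
        refine le_trans ?_ hb1
        exact mul_le_mul_of_nonneg_left hX1 (by positivity)
    _ = (1 + D.CS * 4 ^ D.d * M) / D.c1 ^ 2 * N ^ n := by
        field_simp

open Classical in
/-- elements of iterated sums come from bounded pairs -/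
lemma iter_pre' (π : R) (n : ℕ) (x : R) (X : ℝ) (j : ℕ) :
    ∀ y ∈ iter ((D.box2 X).image (psi' π n x)) j, ∃ v : R × R, D.h v.1 ≤ j * X ∧ D.h v.2 ≤ j * X ∧ psi' π n x v = y := by
  induction j with
  | zero =>
    intro y hy
    have hy0 : y = 0 := by simpa [iter] using hy
    refine ⟨0, ?_, ?_, ?_⟩
    · simp [D.zero]
    · simp [D.zero]
    · rw [map_zero, hy0]
  | succ j ih =>
    intro y hy
    have hy' : y ∈ iter ((D.box2 X).image (psi' π n x)) j + (D.box2 X).image (psi' π n x) := hy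
    rw [mem_add] at hy'
    obtain ⟨y1, hy1, y2, hy2, rfl⟩ := hy'
    obtain ⟨v, hv1, hv2, rfl⟩ := ih y1 hy1
    rw [mem_image] at hy2
    obtain ⟨w, hw, rfl⟩ := hy2
    rw [mem_box2] at hw
    refine ⟨v + w, ?_, ?_, map_add _ _ _⟩
    · refine (D.add _ _).trans ?_
      push_cast
      linarith [hw.1]
    · refine (D.add _ _).trans ?_
      push_cast
      linarith [hw.2]

open Classical in
/-- every pair is congruent to a small one -/
lemma cover [IsDomain R] {π : R} {N : ℕ} (H : Dig π N) (n : ℕ) (x : R) (X : ℝ) (hX : D.X0 ≤ X) :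
    1 ≤ (N : ℝ) ^ n / ((D.box2 X).image (psi' π n x)).card ∧
    ∀ u : R × R, ∃ v : R × R, D.h v.1 ≤ 6 * ((N : ℝ) ^ n / ((D.box2 X).image (psi' π n x)).card) * X ∧
      D.h v.2 ≤ 6 * ((N : ℝ) ^ n / ((D.box2 X).image (psi' π n x)).card) * X ∧
      π ^ n ∣ (u.2 - v.2) * x - (u.1 - v.1) := by
  haveI := finQ H n
  haveI : Fintype (R ⧸ Ideal.span {π ^ n}) := Fintype.ofFinite _
  set B := (D.box2 X).image (psi' π n x) with hB
  have hX0 : 1 ≤ X := D.hX0.trans hX
  have hB0 : (0 : R ⧸ Ideal.span {π ^ n}) ∈ B := by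
    rw [hB, mem_image]
    refine ⟨0, ?_, map_zero _⟩
    rw [mem_box2]
    simp only [Prod.fst_zero, Prod.snd_zero]
    rw [D.zero]
    exact ⟨by linarith, by linarith⟩
  have hBs : ∀ b ∈ B, -b ∈ B := by
    intro b hb
    rw [hB, mem_image] at hb ⊢
    obtain ⟨v, hv, rfl⟩ := hb
    refine ⟨-v, ?_, map_neg _ _⟩
    rw [mem_box2] at hv ⊢
    simp only [Prod.fst_neg, Prod.snd_neg]
    rw [D.neg, D.neg]
    exact hv
  have hgen : AddSubgroup.closure (B : Set (R ⧸ Ideal.span {π ^ n})) = ⊤ := by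
    rw [hB, coe_image, ← AddMonoidHom.map_closure, D.gen2 hX]
    exact AddSubgroup.map_top_of_surjective _ (psi'_surj π n x)
  have hcard : (Fintype.card (R ⧸ Ideal.span {π ^ n}) : ℝ) = (N : ℝ) ^ n := by
    rw [← Nat.card_eq_fintype_card, cardQ H n]
    push_cast
    ring
  have hBpos : (0 : ℝ) < B.card := by
    have : 0 < B.card := card_pos.2 ⟨0, hB0⟩
    exact_mod_cast this
  set κ : ℝ := (N : ℝ) ^ n / B.card with hκ
  have hκ1 : 1 ≤ κ := by
    rw [hκ, le_div_iff₀ hBpos, one_mul, ← hcard]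
    exact_mod_cast card_le_univ B
  refine ⟨hκ1, ?_⟩
  set K : ℕ := ⌈κ⌉₊ with hK
  have hK1 : κ ≤ K := Nat.le_ceil _
  have hK2 : (K : ℝ) ≤ 2 * κ := by
    have := Nat.ceil_lt_add_one (by linarith : 0 ≤ κ)
    rw [← hK] at this
    linarith
  have hKc : Fintype.card (R ⧸ Ideal.span {π ^ n}) ≤ K * B.card := by
    have : (Fintype.card (R ⧸ Ideal.span {π ^ n}) : ℝ) ≤ K * B.card := by
      rw [hcard]
      have h1 : (N : ℝ) ^ n = κ * B.card := by
        rw [hκ]
        field_simp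
      rw [h1]
      exact mul_le_mul_of_nonneg_right hK1 hBpos.le
    exact_mod_cast this
  intro u
  have h1 := diam B hBs hB0 hgen K hKc (psi' π n x u)
  obtain ⟨v, hv1, hv2, hv3⟩ := D.iter_pre' π n x X (3 * K) _ h1
  have hbd : ((3 * K : ℕ) : ℝ) * X ≤ 6 * κ * X := by
    push_cast
    apply mul_le_mul_of_nonneg_right _ (by linarith)
    linarith
  exact ⟨v, hv1.trans hbd, hv2.trans hbd, psi'_eq hv3.symm⟩

end Dat

end Pool.Agent.K9h54.PA
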