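import Mathlib
import Pool.Agent.K9h54.PA.Z3

set_option autoImplicit false

/-! The integers: the sharper upper bound, conclusion. -/

namespace Pool.Agent.K9h54.PA

open Finset

/-- a small vector of the lattice whose second coordinate is not divisible by `p` -/
lemma prime_vec (M : ℤ) (x : ℕ) (ρ : ℝ) (hρ : 0 ≤ ρ)
    (hcov : ∀ u : ℤ × ℤ, ∃ v : ℤ × ℤ, |(v.1 : ℝ)| ≤ ρ ∧ |(v.2 : ℝ)| ≤ ρ ∧ M ∣ (u.2 - v.2) * x - (u.1 - v.1))
    (p : ℤ) (hp : ¬ p ∣ 1) :
    ∃ w : ℤ × ℤ, M ∣ w.2 * x - w.1 ∧ |(w.1 : ℝ)| ≤ 2 * ρ + 1 ∧ |(w.2 : ℝ)| ≤ 2 * ρ + 1 ∧ ¬ p ∣ w.2 := by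
  by_contra hcon
  push Not at hcon
  choose U hU1 hU2 hU3 using hcov
  -- the points of the path
  have step : ∀ u u' : ℤ × ℤ, |((u'.1 - u.1 : ℤ) : ℝ)| ≤ 1 → |((u'.2 - u.2 : ℤ) : ℝ)| ≤ 1 →
      p ∣ u.2 - (U u).2 → p ∣ u'.2 - (U u').2 := by
    intro u u' h1 h2 h3
    set w : ℤ × ℤ := ((u'.1 - (U u').1) - (u.1 - (U u).1), (u'.2 - (U u').2) - (u.2 - (U u).2)) with hw
    have h4 : M ∣ w.2 * x - w.1 := by
      have h5 := dvd_sub (hU3 u') (hU3 u)
      have e : w.2 * x - w.1 = (u'.2 - (U u').2) * x - (u'.1 - (U u').1) - ((u.2 - (U u).2) * x - (u.1 - (U u).1)) := by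
        rw [hw]
        ring
      rw [e]
      exact h5
    have b1 : |(w.1 : ℝ)| ≤ 2 * ρ + 1 := by
      have e : (w.1 : ℝ) = ((u'.1 - u.1 : ℤ) : ℝ) - ((U u').1 : ℝ) + ((U u).1 : ℝ) := by
        rw [hw]
        push_cast
        ring
      rw [e]
      have t1 := abs_add_le (((u'.1 - u.1 : ℤ) : ℝ) - ((U u').1 : ℝ)) ((U u).1 : ℝ)
      have t2 := abs_sub ((u'.1 - u.1 : ℤ) : ℝ) ((U u').1 : ℝ)
      linarith [hU1 u, hU1 u']
    have b2 : |(w.2 : ℝ)| ≤ 2 * ρ + 1 := by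
      have e : (w.2 : ℝ) = ((u'.2 - u.2 : ℤ) : ℝ) - ((U u').2 : ℝ) + ((U u).2 : ℝ) := by
        rw [hw]
        push_cast
        ring
      rw [e]
      have t1 := abs_add_le (((u'.2 - u.2 : ℤ) : ℝ) - ((U u').2 : ℝ)) ((U u).2 : ℝ)
      have t2 := abs_sub ((u'.2 - u.2 : ℤ) : ℝ) ((U u').2 : ℝ)
      linarith [hU2 u, hU2 u']
    have h5 := hcon w h4 b1 b2
    have h6 := dvd_add h5 h3
    have e : w.2 + (u.2 - (U u).2) = u'.2 - (U u').2 := by
      rw [hw]
      ring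
    rwa [e] at h6
  have small : ∀ u : ℤ × ℤ, M ∣ (U u).2 * x - (U u).1 → p ∣ (U u).2 := by
    intro u hu
    exact hcon (U u) hu ((hU1 u).trans (by linarith)) ((hU2 u).trans (by linarith))
  have start : p ∣ ((0 : ℤ × ℤ)).2 - (U 0).2 := by
    have h1 := hU3 0
    simp only [Prod.fst_zero, Prod.snd_zero, zero_sub] at h1 ⊢
    have h2 : M ∣ (U 0).2 * x - (U 0).1 := by
      have e : (U 0).2 * x - (U 0).1 = -(-(U 0).2 * x - -(U 0).1) := by ring
      rw [e]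
      exact (dvd_neg).2 h1
    exact (dvd_neg).2 (small 0 h2)
  have path : ∀ i : ℕ, p ∣ (((i : ℤ), (0 : ℤ)) : ℤ × ℤ).2 - (U ((i : ℤ), (0 : ℤ))).2 := by
    intro i
    induction i with
    | zero => exact start
    | succ i ih =>
      apply step ((i : ℤ), 0) (((i + 1 : ℕ) : ℤ), 0) _ _ ih
      · simp
      · simp
  have last : p ∣ (((x : ℤ), (1 : ℤ)) : ℤ × ℤ).2 - (U ((x : ℤ), (1 : ℤ))).2 := by
    apply step ((x : ℤ), 0) ((x : ℤ), 1) _ _ (path x)
    · simp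
    · simp
  simp only at last
  have h1 := hU3 ((x : ℤ), (1 : ℤ))
  simp only at h1
  have h2 : M ∣ (U ((x : ℤ), (1 : ℤ))).2 * x - (U ((x : ℤ), (1 : ℤ))).1 := by
    have e : (U ((x : ℤ), (1 : ℤ))).2 * x - (U ((x : ℤ), (1 : ℤ))).1 =
        -((1 - (U ((x : ℤ), (1 : ℤ))).2) * x - (x - (U ((x : ℤ), (1 : ℤ))).1)) := by ring
    rw [e]
    exact (dvd_neg).2 h1
  have h3 := small _ h2
  apply hp
  have h4 := dvd_add last h3
  rwa [sub_add_cancel] at h4

/-- a small vector whose second coordinate is prime to `N` -/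
lemma good_vec (M : ℤ) (x : ℕ) (ρ : ℝ) (hρ : 0 ≤ ρ)
    (hcov : ∀ u : ℤ × ℤ, ∃ v : ℤ × ℤ, |(v.1 : ℝ)| ≤ ρ ∧ |(v.2 : ℝ)| ≤ ρ ∧ M ∣ (u.2 - v.2) * x - (u.1 - v.1))
    (r : ℕ) (T : Finset ℕ) (hT : ∀ p ∈ T, p.Prime) (hTr : T.card ≤ r) :
    ∃ w : ℤ × ℤ, M ∣ w.2 * x - w.1 ∧ |(w.1 : ℝ)| ≤ T.card * (JJ r * (2 * ρ + 1)) ∧
      |(w.2 : ℝ)| ≤ T.card * (JJ r * (2 * ρ + 1)) ∧ ∀ p ∈ T, ¬ (p : ℤ) ∣ w.2 := by
  classical
  induction T using Finset.induction_on with
  | empty =>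
    refine ⟨0, ?_, ?_, ?_, ?_⟩
    · simp
    · simp
    · simp
    · intro p hp; exact absurd hp (notMem_empty p)
  | insert q T hq ih =>
    rw [card_insert_of_notMem hq] at hTr
    obtain ⟨u, hu1, hu2, hu3, hu4⟩ := ih (fun p hp => hT p (mem_insert_of_mem hp)) (by omega)
    have hqp := hT q (mem_insert_self _ _)
    obtain ⟨w, hw1, hw2, hw3, hw4⟩ := prime_vec M x ρ hρ hcov (q : ℤ) (by
      intro h
      have := Int.eq_one_of_dvd_one (by positivity) h
      have h2 := hqp.one_lt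
      omega)
    have hnd : ∀ p ∈ insert q T, ¬ ((p : ℤ) ∣ u.2 ∧ (p : ℤ) ∣ w.2) := by
      intro p hp h
      rw [mem_insert] at hp
      rcases hp with rfl | hp
      · exact hw4 h.2
      · exact hu4 p hp h.1
    obtain ⟨k, hk, hk2⟩ := avoid_lin (insert q T) hT u.2 w.2 hnd
    rw [card_insert_of_notMem hq] at hk
    have hJmono : JJ (T.card + 1) ≤ JJ r := by
      unfold JJ
      apply Nat.mul_le_mul
      · exact Nat.pow_le_pow_right (by norm_num) (by omega)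
      · omega
    have hkr : (k : ℝ) ≤ JJ r := by exact_mod_cast (hk.le.trans hJmono)
    have hk0 : (0 : ℝ) ≤ k := Nat.cast_nonneg _
    refine ⟨(u.1 + k * w.1, u.2 + k * w.2), ?_, ?_, ?_, hk2⟩
    · have h1 := dvd_add hu1 (Dvd.dvd.mul_left hw1 (k : ℤ))
      have e : (u.2 + k * w.2) * x - (u.1 + k * w.1) = u.2 * x - u.1 + k * (w.2 * x - w.1) := by ring
      simp only
      rw [e]
      exact h1
    · simp only
      rw [card_insert_of_notMem hq]
      push_cast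
      have t1 := abs_add_le (u.1 : ℝ) (k * w.1)
      rw [abs_mul, abs_of_nonneg hk0] at t1
      have t2 : (k : ℝ) * |(w.1 : ℝ)| ≤ JJ r * (2 * ρ + 1) := mul_le_mul hkr hw2 (abs_nonneg _) (Nat.cast_nonneg _)
      linarith
    · simp only
      rw [card_insert_of_notMem hq]
      push_cast
      have t1 := abs_add_le (u.2 : ℝ) (k * w.2)
      rw [abs_mul, abs_of_nonneg hk0] at t1
      have t2 : (k : ℝ) * |(w.2 : ℝ)| ≤ JJ r * (2 * ρ + 1) := mul_le_mul hkr hw3 (abs_nonneg _) (Nat.cast_nonneg _)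
      linarith

/-- the value as a natural number -/
lemma val_nat (N n : ℕ) (a : Fin n → Fin N) : ∃ x : ℕ, val (N : ℤ) a = x := by
  refine ⟨∑ i, (a i : ℕ) * N ^ (i : ℕ), ?_⟩
  unfold val
  push_cast
  rfl

lemma coprime_of_primes (N : ℕ) (hN : 2 ≤ N) (g : ℤ) (h : ∀ p ∈ N.primeFactors, ¬ (p : ℤ) ∣ g) : IsCoprime g (N : ℤ) := by
  rw [Int.isCoprime_iff_gcd_eq_one]
  by_contra hne
  obtain ⟨p, hp, hpd⟩ := Nat.exists_prime_and_dvd hne
  have h1 : (p : ℤ) ∣ g := (Int.natCast_dvd_natCast.2 hpd).trans (Int.gcd_dvd_left _ _)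
  have h2 : (p : ℤ) ∣ (N : ℤ) := (Int.natCast_dvd_natCast.2 hpd).trans (Int.gcd_dvd_right _ _)
  exact h p (Nat.mem_primeFactors.2 ⟨hp, Int.natCast_dvd_natCast.1 h2, by omega⟩) h1

lemma omega_pos (N : ℕ) (hN : 2 ≤ N) : 1 ≤ N.primeFactors.card := by
  have : N.primeFactors.Nonempty := Nat.nonempty_primeFactors.2 (by omega)
  exact card_pos.2 this

open Classical in
/-- the sharper upper bound -/
theorem upperZ : ∃ C : ℝ, 0 < C ∧ ∀ N : ℕ, 2 ≤ N → ∀ n : ℕ,
    avg (sizeZ N) (N : ℤ) N n ≤ (n : ℝ) / 2 + C * N.primeFactors.card / Real.log N := by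
  refine ⟨1600 + Real.log 13 + 6 * Real.log 4 + 10, ?_, ?_⟩
  · have h1 : 0 ≤ Real.log 13 := Real.log_nonneg (by norm_num)
    have h2 : 0 ≤ Real.log 4 := Real.log_nonneg (by norm_num)
    linarith
  intro N hN n
  have hN0 : (0 : ℝ) < N := by exact_mod_cast (by omega : 0 < N)
  have hL : 0 < Real.log N := Real.log_pos (by exact_mod_cast (by omega : 1 < N))
  have H := digZ N hN
  set r := N.primeFactors.card with hr
  have hr1 : 1 ≤ r := omega_pos N hN
  have hr1r : (1 : ℝ) ≤ r := by exact_mod_cast hr1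
  set M0 : ℝ := (N : ℝ) ^ ((n : ℝ) / 2) with hM0
  have hM1 : 1 ≤ M0 := Real.one_le_rpow (by exact_mod_cast (by omega : 1 ≤ N)) (by positivity)
  have hM2 : M0 ^ (2 * datZ.d) = (N : ℝ) ^ n := by
    show M0 ^ (2 * 1) = (N : ℝ) ^ n
    rw [hM0, ← Real.rpow_natCast, ← Real.rpow_mul hN0.le]
    push_cast
    rw [div_mul_cancel₀ _ (by norm_num), Real.rpow_natCast]
  have hMlog : Real.log M0 = (n : ℝ) / 2 * Real.log N := by rw [hM0, Real.log_rpow hN0]
  have havg := datZ.avg_image' H n M0 1 (by exact hM1) (by rw [hM2]) (by rw [hM2, one_mul])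
  set κ : (Fin n → Fin N) → ℝ := fun a => (N : ℝ) ^ n / ((datZ.box2 M0).image (psi' (N : ℤ) n (val (N : ℤ) a))).card with hκ
  have hconst : (1 + datZ.CS * 4 ^ datZ.d * 1) / datZ.c1 ^ 2 = 1585 := by
    unfold Dat.CS Dat.CP Dat.CI
    simp only [datZ]
    norm_num
  rw [hconst] at havg
  set Q : ℝ := Real.log 13 + Real.log (r * JJ r) with hQ
  have h1 : ∀ a : Fin n → Fin N, lam (sizeZ N) (N : ℤ) N n a ≤ (Q + Real.log M0 + κ a) / Real.log N := by
    intro a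
    obtain ⟨hκ1, hcov⟩ := datZ.cover H n (val (N : ℤ) a) M0 (by exact hM1)
    have hκa : κ a = (N : ℝ) ^ n / ((datZ.box2 M0).image (psi' (N : ℤ) n (val (N : ℤ) a))).card := rfl
    rw [← hκa] at hκ1 hcov
    obtain ⟨x, hx⟩ := val_nat N n a
    rw [hx] at hcov
    have hρ0 : 0 ≤ 6 * κ a * M0 := by positivity
    obtain ⟨w, hw1, hw2, hw3, hw4⟩ := good_vec ((N : ℤ) ^ n) x (6 * κ a * M0) hρ0 hcov r N.primeFactors
      (fun p hp => Nat.prime_of_mem_primeFactors hp) le_rfl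
    have hcop := coprime_of_primes N hN w.2 hw4
    have hg0 : w.2 ≠ 0 := coprime_ne H hcop
    have hg1 : (1 : ℝ) ≤ |(w.2 : ℝ)| := by
      have : 1 ≤ |w.2| := Int.one_le_abs hg0
      exact_mod_cast this
    have h2 : lam (sizeZ N) (N : ℤ) N n a ≤ (datZ.d : ℝ) * (Real.log (max (datZ.h w.1) (datZ.h w.2)) / Real.log N) := by
      unfold lam
      rw [datZ.set_eq H (sizeZ N) (by unfold sizeZ; simp) (fun r _ => by
        show Real.logb N |(r : ℝ)| = ((1 : ℕ) : ℝ) * (Real.log |(r : ℝ)| / Real.log N)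
        rw [Nat.cast_one, one_mul]
        rfl) a]
      apply csInf_le (datZ.bdd H a)
      refine ⟨w.1, w.2, ⟨hcop, ?_⟩, rfl⟩
      rw [hx]
      exact hw1
    have h3 : (datZ.d : ℝ) = 1 := by
      show ((1 : ℕ) : ℝ) = 1
      norm_num
    rw [h3, one_mul] at h2
    refine h2.trans ?_
    apply div_le_div_of_nonneg_right _ hL.le
    have hJ0 : (0 : ℝ) < JJ r := by
      unfold JJ
      positivity
    have hW : 2 * (6 * κ a * M0) + 1 ≤ 13 * κ a * M0 := by nlinarith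
    have hm : max (datZ.h w.1) (datZ.h w.2) ≤ (r * JJ r) * (13 * κ a * M0) := by
      have h4 : (r : ℝ) * (JJ r * (2 * (6 * κ a * M0) + 1)) ≤ (r * JJ r) * (13 * κ a * M0) := by
        rw [← mul_assoc]
        exact mul_le_mul_of_nonneg_left hW (by positivity)
      exact max_le (hw2.trans h4) (hw3.trans h4)
    have hmpos : 0 < max (datZ.h w.1) (datZ.h w.2) := lt_of_lt_of_le (by linarith) ((show (1 : ℝ) ≤ datZ.h w.2 from hg1).trans (le_max_right _ _))
    have h4 := Real.log_le_log hmpos hm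
    have hκ0 : 0 < κ a := by linarith
    have hM00 : 0 < M0 := by linarith
    have hrJ : (r : ℝ) * JJ r ≠ 0 := by positivity
    have e4 : Real.log ((r * JJ r) * (13 * κ a * M0)) = Real.log (r * JJ r) + (Real.log 13 + Real.log (κ a) + Real.log M0) := by
      rw [Real.log_mul hrJ (mul_ne_zero (mul_ne_zero (by norm_num) hκ0.ne') hM00.ne'),
        Real.log_mul (mul_ne_zero (by norm_num) hκ0.ne') hM00.ne', Real.log_mul (by norm_num) hκ0.ne']
    rw [e4] at h4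
    have h5 : Real.log (κ a) ≤ κ a := (Real.log_le_sub_one_of_pos hκ0).trans (by linarith)
    rw [hQ]
    linarith
  have hcard : ((Fintype.card (Fin n → Fin N) : ℕ) : ℝ) = (N : ℝ) ^ n := by
    rw [Fintype.card_fun, Fintype.card_fin, Fintype.card_fin]
    push_cast
    rfl
  have hNn : (0 : ℝ) < (N : ℝ) ^ n := by positivity
  have h2 : avg (sizeZ N) (N : ℤ) N n ≤ (Q + Real.log M0 + 1585) / Real.log N := by
    unfold avg
    rw [div_le_iff₀ hNn]
    refine (sum_le_sum fun a _ => h1 a).trans ?_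
    rw [← sum_div, sum_add_distrib, sum_const, nsmul_eq_mul, card_univ, hcard, div_mul_eq_mul_div]
    apply div_le_div_of_nonneg_right _ hL.le
    have : ∑ a, κ a ≤ 1585 * (N : ℝ) ^ n := havg
    linarith
  refine h2.trans ?_
  have hQ2 : Q ≤ Real.log 13 + (6 * Real.log 4 + 10) * r := by
    rw [hQ]
    have e1 : ((JJ r : ℕ) : ℝ) = (4 : ℝ) ^ (2 * r) * (2 * r + 1) := by
      unfold JJ
      push_cast
      ring
    rw [e1, Real.log_mul (by positivity) (by positivity), Real.log_mul (by positivity) (by positivity), Real.log_pow]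
    have h3 : Real.log (r : ℝ) ≤ r := (Real.log_le_sub_one_of_pos (by linarith)).trans (by linarith)
    have h4 : Real.log (2 * (r : ℝ) + 1) ≤ 2 * r := (Real.log_le_sub_one_of_pos (by linarith)).trans (by linarith)
    have h5 : 0 ≤ Real.log 4 := Real.log_nonneg (by norm_num)
    have h6 : 0 ≤ Real.log 4 * r := by positivity
    push_cast
    linarith
  have hl13 : 0 ≤ Real.log 13 := Real.log_nonneg (by norm_num)
  rw [hMlog]
  have e : (Q + (n : ℝ) / 2 * Real.log N + 1585) / Real.log N = (n : ℝ) / 2 + (Q + 1585) / Real.log N := by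
    field_simp
    ring
  rw [e]
  have h3 : (Q + 1585) / Real.log N ≤ (1600 + Real.log 13 + 6 * Real.log 4 + 10) * r / Real.log N := by
    apply div_le_div_of_nonneg_right _ hL.le
    have h5 : 0 ≤ Real.log 4 := Real.log_nonneg (by norm_num)
    nlinarith
  linarith

/-- the lower bound -/
theorem lowerZ (N : ℕ) (hN : 2 ≤ N) (n : ℕ) : (n : ℝ) / 2 - 18 / Real.log N ≤ avg (sizeZ N) (N : ℤ) N n := by
  have h1 := datZ.lower (digZ N hN) (sizeZ N) (by unfold sizeZ; simp) (fun r _ => by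
    show Real.logb N |(r : ℝ)| = ((1 : ℕ) : ℝ) * (Real.log |(r : ℝ)| / Real.log N)
    rw [Nat.cast_one, one_mul]
    rfl) n
  have hN0 : (0 : ℝ) < N := by exact_mod_cast (by omega : 0 < N)
  have hNn : (0 : ℝ) < (N : ℝ) ^ n := by positivity
  unfold avg
  rw [le_div_iff₀ hNn, mul_comm]
  refine le_trans (le_of_eq ?_) h1
  have h3 : (datZ.d : ℝ) = 1 := by
    show ((1 : ℕ) : ℝ) = 1
    norm_num
  have h4 : datZ.c2 = 3 := rfl
  rw [h3, h4]
  ring

end Pool.Agent.K9h54.PA
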